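import Mathlib

set_option autoImplicit false
open MeasureTheory Finset

namespace Konyagin305

/-- The circle `ℝ/ℤ`. -/
abbrev Ω := UnitAddCircle

/-- The basic character `x ↦ e^{2πix}`. -/
noncomputable def z (x : Ω) : ℂ := (AddCircle.toCircle x : ℂ)

lemma norm_z (x : Ω) : ‖z x‖ = 1 := Circle.norm_coe _

lemma z_nsmul (n : ℕ) (x : Ω) : z (n • x) = z x ^ n := by
  simp [z, AddCircle.toCircle_nsmul]

lemma continuous_z : Continuous z := by
  have h : Continuous (fun c : Circle => (c : ℂ)) := by fun_prop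
  exact h.comp AddCircle.continuous_toCircle

lemma measurable_z : Measurable z := continuous_z.measurable

lemma mp (n : ℕ) (hn : 0 < n) : MeasurePreserving (fun x : Ω => n • x) volume volume := by
  have h := MeasureTheory.Measure.measurePreserving_zsmul (volume : Measure Ω)
    (n := (n : ℤ)) (by exact_mod_cast hn.ne')
  simpa using h

lemma integral_z_pow (n : ℕ) (hn : 0 < n) : ∫ x : Ω, z x ^ n = 0 := by
  have h : ∀ x : Ω, fourier (n : ℤ) x = z x ^ n := by
    intro x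
    rw [fourier_apply]
    simp [z, AddCircle.toCircle_nsmul]
  have h2 := integral_eq_zero_of_add_right_eq_neg (μ := (volume : Measure Ω))
    (fourier_add_half_inv_index (T := 1) (n := (n : ℤ)) (by exact_mod_cast hn.ne') one_pos)
  simpa [h] using h2

lemma integrable_of_cont {E : Type*} [NormedAddCommGroup E] (f : Ω → E) (hf : Continuous f) :
    Integrable f volume :=
  hf.integrable_of_hasCompactSupport (HasCompactSupport.of_compactSpace f)

lemma integral_re_z_pow (n : ℕ) (hn : 0 < n) : ∫ x : Ω, (z x ^ n).re = 0 := by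
  have h := integral_z_pow n hn
  have h2 : ∫ x : Ω, (z x ^ n).re = (∫ x : Ω, z x ^ n).re := by
    have := integral_re (μ := (volume : Measure Ω)) (𝕜 := ℂ) (f := fun x : Ω => z x ^ n)
      (integrable_of_cont _ (continuous_z.pow n))
    simpa using this
  rw [h2, h]; simp

/-- Fejér identity. -/
lemma fejer_identity (w : ℂ) (hw : ‖w‖ = 1) (K : ℕ) :
    ‖∑ j ∈ range K, w ^ j‖ ^ 2 = K + 2 * ∑ a ∈ Ico 1 K, ((K : ℝ) - a) * (w ^ a).re := by
  have hww : w * (starRingEnd ℂ) w = 1 := by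
    rw [Complex.mul_conj, Complex.normSq_eq_norm_sq, hw]; simp
  have hconj : ∀ n : ℕ, w ^ n * (starRingEnd ℂ) (w ^ n) = 1 := by
    intro n
    rw [map_pow, ← mul_pow, hww, one_pow]
  induction K with
  | zero => simp
  | succ K ih =>
    rw [Finset.sum_range_succ, ← Complex.normSq_eq_norm_sq, Complex.normSq_add,
      Complex.normSq_eq_norm_sq, Complex.normSq_eq_norm_sq, ih]
    have h1 : ‖w ^ K‖ = 1 := by rw [norm_pow, hw, one_pow]
    rw [h1]
    have h2 : ((∑ j ∈ range K, w ^ j) * (starRingEnd ℂ) (w ^ K)).re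
        = ∑ a ∈ Ico 1 (K + 1), (w ^ a).re := by
      rw [Finset.sum_mul, Complex.re_sum]
      -- reflect
      have h3 : ∀ j ∈ range K, (w ^ j * (starRingEnd ℂ) (w ^ K)).re = (w ^ (K - j)).re := by
        intro j hj
        have hj' : j < K := Finset.mem_range.1 hj
        have h4 : w ^ K = w ^ j * w ^ (K - j) := by rw [← pow_add]; congr 1; omega
        rw [h4, map_mul, ← mul_assoc, hconj, one_mul]
        exact Complex.conj_re _
      rw [Finset.sum_congr rfl h3]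
      apply Finset.sum_bij' (fun j _ => K - j) (fun a _ => K - a)
      · intro j hj; simp only [Finset.mem_range, Finset.mem_Ico] at *; omega
      · intro j hj; simp only [Finset.mem_range, Finset.mem_Ico] at *; omega
      · intro j hj; simp only [Finset.mem_range] at *; omega
      · intro j hj; simp only [Finset.mem_Ico] at *; omega
      · intro j hj; rfl
    rw [h2]
    have h5 : ∑ a ∈ Ico 1 (K + 1), (((K + 1 : ℕ) : ℝ) - a) * (w ^ a).re
        = ∑ a ∈ Ico 1 K, ((K : ℝ) - a) * (w ^ a).re + ∑ a ∈ Ico 1 (K + 1), (w ^ a).re := by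
      have h6 : ∑ a ∈ Ico 1 (K + 1), (((K + 1 : ℕ) : ℝ) - a) * (w ^ a).re
          = ∑ a ∈ Ico 1 (K + 1), ((K : ℝ) - a) * (w ^ a).re + ∑ a ∈ Ico 1 (K + 1), (w ^ a).re := by
        rw [← Finset.sum_add_distrib]
        apply Finset.sum_congr rfl
        intro a _
        push_cast
        ring
      rw [h6]
      congr 1
      rcases Nat.eq_zero_or_pos K with hK | hK
      · subst hK; simp
      · rw [Finset.sum_Ico_succ_top (by omega)]
        simp
    rw [h5]
    push_cast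
    ring

/-- Truncated logarithm expansion. -/
lemma log_expansion (ρ : ℝ) (h0 : 0 < ρ) (h1 : ρ < 1) (N : ℕ) (w : ℂ) (hw : ‖w‖ = 1) :
    |Real.log ‖1 - ρ * w‖ + ∑ k ∈ Icc 1 N, ρ ^ k / k * (w ^ k).re|
      ≤ ρ ^ (N + 1) * (1 - ρ)⁻¹ / (N + 1) := by
  have hz : ‖(-(ρ * w) : ℂ)‖ < 1 := by
    rw [norm_neg, norm_mul, hw, mul_one, Complex.norm_real, Real.norm_of_nonneg h0.le]; exact h1
  have hz' : ‖(-(ρ * w) : ℂ)‖ = ρ := by
    rw [norm_neg, norm_mul, hw, mul_one, Complex.norm_real, Real.norm_of_nonneg h0.le]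
  have h := Complex.norm_log_sub_logTaylor_le N hz
  rw [hz'] at h
  refine le_trans ?_ h
  refine le_trans (le_of_eq ?_) (Complex.abs_re_le_norm _)
  congr 1
  rw [Complex.sub_re, Complex.log_re]
  have e1 : (1 : ℂ) + -(ρ * w) = 1 - ρ * w := by ring
  rw [e1]
  have e2 : (Complex.logTaylor (N + 1) (-(ρ * w))).re = -∑ k ∈ Icc 1 N, ρ ^ k / k * (w ^ k).re := by
    unfold Complex.logTaylor
    rw [Finset.sum_range_succ', Complex.add_re, Complex.re_sum]
    simp only [Nat.cast_zero, div_zero, Complex.zero_re, add_zero]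
    rw [← Finset.sum_neg_distrib]
    rw [Finset.range_eq_Ico, Finset.sum_Ico_add' (fun k => ((-1 : ℂ) ^ (k + 1) * (-(ρ * w)) ^ k / k).re) 0 N 1]
    apply Finset.sum_congr
    · ext k; simp
    · intro k hk
      have e3 : ((-1 : ℂ) ^ (k + 1) * (-(ρ * w)) ^ k / k) = ((-(ρ ^ k / k) : ℝ) : ℂ) * w ^ k := by
        push_cast
        rw [neg_pow (ρ * w : ℂ) k, mul_pow, pow_succ]
        have : ((-1 : ℂ) ^ k * -1) * ((-1) ^ k * (ρ ^ k * w ^ k)) = -(ρ ^ k * w ^ k) := by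
          have h2 : ((-1 : ℂ) ^ k * (-1) ^ k) = 1 := by rw [← mul_pow]; simp
          linear_combination (-(ρ ^ k * w ^ k) : ℂ) * h2
        rw [this]; ring
      rw [e3, Complex.re_ofReal_mul]
      ring
  rw [e2]
  ring

/-- `‖1 - w‖ ≤ (2/(1+ρ)) ‖1 - ρ w‖` on the unit circle, in exponential form. -/
lemma norm_le_damped (ρ : ℝ) (h0 : 0 < ρ) (h1 : ρ < 1) (w : ℂ) (hw : ‖w‖ = 1) :
    ‖1 - w‖ ≤ Real.exp (1 - ρ) * ‖1 - ρ * w‖ := by
  have hre : w.re ^ 2 + w.im ^ 2 = 1 := by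
    have := Complex.sq_norm w
    rw [hw, Complex.normSq_apply] at this; nlinarith
  have hre1 : -1 ≤ w.re := by nlinarith [sq_nonneg w.im, sq_nonneg (w.re + 1)]
  have hre2 : w.re ≤ 1 := by nlinarith [sq_nonneg w.im, sq_nonneg (w.re - 1)]
  have hA : ‖1 - w‖ ^ 2 = 2 - 2 * w.re := by
    rw [Complex.sq_norm, Complex.normSq_apply]; simp; nlinarith
  have hB : ‖1 - ρ * w‖ ^ 2 = 1 + ρ ^ 2 - 2 * ρ * w.re := by
    rw [Complex.sq_norm, Complex.normSq_apply]; simp
    have : (1 - ρ * w.re) * (1 - ρ * w.re) + ρ * w.im * (ρ * w.im)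
      = 1 - 2 * ρ * w.re + ρ ^ 2 * (w.re ^ 2 + w.im ^ 2) := by ring
    rw [this, hre]; ring
  have hkey : ‖1 - w‖ ^ 2 * ((1 + ρ) / 2) ^ 2 ≤ ‖1 - ρ * w‖ ^ 2 := by
    rw [hA, hB]
    nlinarith [mul_nonneg (sq_nonneg (1 - ρ)) (by linarith : (0:ℝ) ≤ 1 + w.re)]
  have hkey2 : ‖1 - w‖ * ((1 + ρ) / 2) ≤ ‖1 - ρ * w‖ := by
    apply le_of_sq_le_sq _ (norm_nonneg _)
    rw [mul_pow]; exact hkey
  -- 2/(1+ρ) ≤ exp(1-ρ)
  have hexp : 1 ≤ Real.exp (1 - ρ) * ((1 + ρ) / 2) := by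
    have h3 : 1 + (1 - ρ) ≤ Real.exp (1 - ρ) := by linarith [Real.add_one_le_exp (1 - ρ)]
    nlinarith [mul_le_mul_of_nonneg_right h3 (by linarith : (0:ℝ) ≤ (1 + ρ) / 2)]
  calc ‖1 - w‖ = ‖1 - w‖ * 1 := by ring
    _ ≤ ‖1 - w‖ * (Real.exp (1 - ρ) * ((1 + ρ) / 2)) := by gcongr
    _ = Real.exp (1 - ρ) * (‖1 - w‖ * ((1 + ρ) / 2)) := by ring
    _ ≤ Real.exp (1 - ρ) * ‖1 - ρ * w‖ := by gcongr

end Konyagin305
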