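import Pool.Agent.Konyagin305.Step2

set_option autoImplicit false
open MeasureTheory Finset Filter

namespace Konyagin305

lemma norm_one_sub_z (t : ℝ) (h0 : 0 < t) (h1 : t < 1) :
    4 * min t (1 - t) ≤ ‖1 - z (t : Ω)‖ := by
  have e1 : z (t : Ω) = Complex.exp (Complex.I * ((2 * Real.pi * t : ℝ) : ℂ)) := by
    unfold z
    rw [AddCircle.toCircle_apply_mk, Circle.coe_exp]
    congr 1
    push_cast
    ring
  have e2 : ‖1 - z (t : Ω)‖ = 2 * Real.sin (Real.pi * t) := by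
    rw [norm_sub_rev, e1, Complex.norm_exp_I_mul_ofReal_sub_one]
    have h3 : 2 * Real.pi * t / 2 = Real.pi * t := by ring
    rw [h3, Real.norm_of_nonneg]
    have : 0 ≤ Real.sin (Real.pi * t) := by
      apply Real.sin_nonneg_of_nonneg_of_le_pi
      · positivity
      · nlinarith [Real.pi_pos]
    linarith
  rw [e2]
  have hpi := Real.pi_pos
  rcases le_total t (1 / 2) with h | h
  · have h3 := Real.mul_le_sin (x := Real.pi * t) (by positivity) (by nlinarith)
    have h4 : 2 / Real.pi * (Real.pi * t) = 2 * t := by field_simp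
    rw [h4] at h3
    have := min_le_left t (1 - t)
    linarith
  · have h3 := Real.mul_le_sin (x := Real.pi * (1 - t)) (by nlinarith) (by nlinarith)
    have h4 : 2 / Real.pi * (Real.pi * (1 - t)) = 2 * (1 - t) := by field_simp
    rw [h4] at h3
    have h5 : Real.sin (Real.pi * (1 - t)) = Real.sin (Real.pi * t) := by
      rw [show Real.pi * (1 - t) = Real.pi - Real.pi * t by ring, Real.sin_pi_sub]
    rw [h5] at h3
    have := min_le_right t (1 - t)
    linarith

lemma dirichlet_pt (L : ℕ) (τ : ℝ) (hτ0 : 0 < τ) (hτ1 : τ < 1) (t : ℝ) (h0 : 0 < t)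
    (h1 : t < 1) :
    ‖∑ j ∈ range L, z (t : Ω) ^ j‖ ≤ (L : ℝ) ^ τ * (t ^ (τ - 1) + (1 - t) ^ (τ - 1)) := by
  set D := ‖∑ j ∈ range L, z (t : Ω) ^ j‖ with hD
  have hD0 : 0 ≤ D := norm_nonneg _
  have hDL : D ≤ L := by
    refine (norm_sum_le _ _).trans ?_
    simp [norm_z]
  have hm : 0 < min t (1 - t) := lt_min h0 (by linarith)
  have hDm : D ≤ (min t (1 - t))⁻¹ := by
    have h2 : D * ‖1 - z (t : Ω)‖ ≤ 2 := by
      rw [hD, ← norm_mul, geom_sum_mul_neg]
      refine (norm_sub_le _ _).trans ?_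
      rw [norm_pow, norm_z]; norm_num
    have h3 := norm_one_sub_z t h0 h1
    rw [← one_div, le_div_iff₀ hm]
    nlinarith [mul_le_mul_of_nonneg_left h3 hD0]
  have h2 : D = D ^ τ * D ^ (1 - τ) := by
    rcases hD0.eq_or_lt with h | h
    · rw [← h, Real.zero_rpow hτ0.ne', zero_mul]
    · rw [← Real.rpow_add h]; simp
  have h3 : D ^ τ ≤ (L : ℝ) ^ τ := Real.rpow_le_rpow hD0 hDL hτ0.le
  have h4 : D ^ (1 - τ) ≤ (min t (1 - t)) ^ (τ - 1) := by
    have h5 := Real.rpow_le_rpow hD0 hDm (by linarith : 0 ≤ 1 - τ)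
    refine h5.trans (le_of_eq ?_)
    rw [Real.inv_rpow hm.le, ← Real.rpow_neg hm.le]
    congr 1; ring
  have h6 : (min t (1 - t)) ^ (τ - 1) ≤ t ^ (τ - 1) + (1 - t) ^ (τ - 1) := by
    have p1 : 0 < t ^ (τ - 1) := Real.rpow_pos_of_pos h0 _
    have p2 : 0 < (1 - t) ^ (τ - 1) := Real.rpow_pos_of_pos (by linarith) _
    rcases min_choice t (1 - t) with h | h
    · rw [h]; linarith
    · rw [h]; linarith
  rw [h2]
  have := h4.trans h6
  have hp : 0 ≤ D ^ (1 - τ) := Real.rpow_nonneg hD0 _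
  gcongr

lemma dirichlet_L1 (L : ℕ) (τ : ℝ) (hτ0 : 0 < τ) (hτ1 : τ < 1) :
    ∫ x : Ω, ‖∑ j ∈ range L, z x ^ j‖ ≤ (L : ℝ) ^ τ * (2 / τ) := by
  have hcont : Continuous (fun x : Ω => ‖∑ j ∈ range L, z x ^ j‖) := by
    apply Continuous.norm
    exact continuous_finsetSum _ (fun j _ => continuous_z.pow j)
  rw [← UnitAddCircle.integral_preimage 0 (fun x : Ω => ‖∑ j ∈ range L, z x ^ j‖)]
  rw [zero_add, integral_Ioc_eq_integral_Ioo]
  have hi1 : IntervalIntegrable (fun t : ℝ => t ^ (τ - 1)) volume 0 1 :=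
    intervalIntegral.intervalIntegrable_rpow' (by linarith)
  have hi2 : IntervalIntegrable (fun t : ℝ => (1 - t) ^ (τ - 1)) volume 0 1 := by
    have := hi1.comp_sub_left 1
    simpa using this.symm
  have hint : IntegrableOn (fun t : ℝ => (L : ℝ) ^ τ * (t ^ (τ - 1) + (1 - t) ^ (τ - 1)))
      (Set.Ioo 0 1) volume := by
    have := ((hi1.add hi2).const_mul ((L : ℝ) ^ τ))
    rw [intervalIntegrable_iff_integrableOn_Ioo_of_le zero_le_one] at this
    exact this
  have hle : ∫ t in Set.Ioo (0 : ℝ) 1, ‖∑ j ∈ range L, z (t : Ω) ^ j‖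
      ≤ ∫ t in Set.Ioo (0 : ℝ) 1, (L : ℝ) ^ τ * (t ^ (τ - 1) + (1 - t) ^ (τ - 1)) := by
    apply setIntegral_mono_on _ hint measurableSet_Ioo
    · intro t ht
      exact dirichlet_pt L τ hτ0 hτ1 t ht.1 ht.2
    · have : Continuous (fun t : ℝ => ‖∑ j ∈ range L, z (t : Ω) ^ j‖) :=
        hcont.comp (AddCircle.continuous_mk' 1)
      exact (this.continuousOn.integrableOn_compact (K := Set.Icc 0 1) isCompact_Icc).mono_set
        Set.Ioo_subset_Icc_self
  refine hle.trans (le_of_eq ?_)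
  rw [← integral_Ioc_eq_integral_Ioo, ← intervalIntegral.integral_of_le zero_le_one,
    intervalIntegral.integral_const_mul, intervalIntegral.integral_add hi1 hi2]
  congr 1
  have e1 : ∫ t in (0 : ℝ)..1, t ^ (τ - 1) = 1 / τ := by
    rw [integral_rpow (Or.inl (by linarith))]
    simp [hτ0.ne']
  have e2 : ∫ t in (0 : ℝ)..1, (1 - t) ^ (τ - 1) = 1 / τ := by
    rw [intervalIntegral.integral_comp_sub_left (fun t => t ^ (τ - 1)) 1]
    simpa using e1
  rw [e1, e2]; ring

end Konyagin305
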