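import Pool.Agent.Konyagin305.Step2

set_option autoImplicit false
open MeasureTheory Finset Filter

namespace Konyagin305

lemma exists_rho (h δ : ℝ) (hh : 0 < h) (hδ : 0 < δ) :
    ∃ ρ : ℝ, 0 < ρ ∧ ρ < 1 ∧ ∃ K' : ℕ, (1 - ρ) / h + err ρ K' ≤ δ := by
  obtain ⟨ρ, hρ0, hρ1, hρ⟩ : ∃ ρ : ℝ, 0 < ρ ∧ ρ < 1 ∧ (1 - ρ) / h ≤ δ / 2 := by
    refine ⟨1 - min (1 / 2) (h * δ / 2), ?_, ?_, ?_⟩
    · have := min_le_left (1 / 2 : ℝ) (h * δ / 2); linarith
    · have : 0 < min (1 / 2 : ℝ) (h * δ / 2) := lt_min (by norm_num) (by positivity)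
      linarith
    · rw [div_le_iff₀ hh]
      have := min_le_right (1 / 2 : ℝ) (h * δ / 2)
      linarith
  refine ⟨ρ, hρ0, hρ1, ?_⟩
  have h1 : 0 < 1 - ρ := by linarith
  obtain ⟨K', hK'⟩ := exists_nat_gt (2 / (δ * (1 - ρ)))
  refine ⟨K', ?_⟩
  have h2 : err ρ K' ≤ δ / 2 := by
    unfold err
    have h3 : ρ ^ (K' + 1) ≤ 1 := pow_le_one₀ hρ0.le hρ1.le
    have h4 : (0 : ℝ) < (K' : ℝ) + 1 := by positivity
    rw [div_le_iff₀ h4]
    rw [div_lt_iff₀ (by positivity)] at hK'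
    have h5 : ρ ^ (K' + 1) * (1 - ρ)⁻¹ ≤ 1 * (1 - ρ)⁻¹ := by gcongr
    refine h5.trans ?_
    rw [one_mul, inv_le_comm₀ h1 (by positivity), inv_le_iff_one_le_mul₀ (by positivity)]
    nlinarith
  linarith

theorem step2 (K₀ : ℕ) (μ : Fin K₀ → ℕ) (c η : ℝ) (hc : 0 < c) (hη : 0 < η)
    (h : (volume : Measure Ω).real
      {x | Real.exp (-c) < ∏ a : Fin K₀, ‖1 - z x ^ ((a : ℕ) + 1)‖ ^ μ a} ≤ η)
    (ε : ℝ) (hε : 0 < ε) :
    ∃ K : Finset ℕ, K.Nonempty ∧
      (volume : Measure Ω).real {x | ε ≤ ‖∑ e ∈ K, z x ^ e‖} ≤ 3 * η := by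
  classical
  set S : ℕ := ∑ a, μ a with hS
  -- choose t
  obtain ⟨t, ht0, ht1, ht2⟩ : ∃ t : ℕ, 0 < t ∧ Real.exp (-(c * t / 2)) < ε ∧
      2 * ((t : ℝ) * S) / (c * t / 4) ^ 2 ≤ η := by
    obtain ⟨t1, ht1⟩ := exists_nat_gt (2 * (-Real.log ε) / c)
    obtain ⟨t2, ht2⟩ := exists_nat_gt (32 * S / (c ^ 2 * η))
    refine ⟨t1 + t2 + 1, by omega, ?_, ?_⟩
    · rw [← Real.lt_log_iff_exp_lt hε]
      rw [div_lt_iff₀ hc] at ht1
      push_cast
      have : (0 : ℝ) ≤ t2 := by positivity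
      nlinarith
    · set t : ℝ := ((t1 + t2 + 1 : ℕ) : ℝ) with htd
      have htpos : 0 < t := by rw [htd]; positivity
      have htge : (t2 : ℝ) ≤ t := by rw [htd]; push_cast; linarith [(by positivity : (0:ℝ) ≤ t1)]
      have e1 : 2 * (t * S) / (c * t / 4) ^ 2 = 32 * S / (c ^ 2 * t) := by
        field_simp
        ring
      rw [e1]
      rw [div_lt_iff₀ (by positivity)] at ht2
      rw [div_le_iff₀ (by positivity)]
      have : (t2 : ℝ) * (c ^ 2 * η) ≤ t * (c ^ 2 * η) := by gcongr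
      nlinarith
  -- index type
  let ι := (a : Fin K₀) × Fin (t * μ a)
  let a : ι → ℕ := fun j => (j.1 : ℕ) + 1
  have hcard : (Fintype.card ι : ℝ) = (t : ℝ) * S := by
    have : Fintype.card ι = t * S := by
      simp only [ι, Fintype.card_sigma, Fintype.card_fin, hS, Finset.mul_sum]
    rw [this]; push_cast; ring
  have hr0 : (0 : ℝ) ≤ Fintype.card ι := by positivity
  obtain ⟨hh, hh0, hh1⟩ := exists_h (η / ((Fintype.card ι : ℝ) + 1)) (by positivity)
  have hct : 0 < c * t := by positivity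
  obtain ⟨ρ, hρ0, hρ1, K', hρK⟩ := exists_rho hh (c * t / (4 * ((Fintype.card ι : ℝ) + 1))) hh0
    (by positivity)
  -- primes
  let e := Fintype.equivFin ι
  let N : ι → ℕ := fun j => Nat.nth Nat.Prime (K₀ + K' + (e j : ℕ))
  have hp : ∀ j, (N j).Prime := fun j => Nat.prime_nth_prime _
  have hinj : Function.Injective N := by
    intro i j hij
    have := Nat.nth_injective Nat.infinite_setOfPred_prime hij
    have h2 : (e i : ℕ) = e j := by omega
    exact e.injective (Fin.ext h2)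
  have hbig : ∀ j, K₀ + K' + 2 ≤ N j := by
    intro j
    have := Nat.add_two_le_nth_prime (K₀ + K' + (e j : ℕ))
    simp only [N]; omega
  have ha : ∀ j, 0 < a j := fun j => by simp [a]
  have haN : ∀ j, a j < N j := by
    intro j
    have := hbig j
    have h3 : (j.1 : ℕ) < K₀ := j.1.2
    simp only [a]; omega
  have hKN : ∀ j, K' < N j := fun j => by have := hbig j; omega
  obtain ⟨K, hKne, hK⟩ := newman N a hp hinj ha haN
  refine ⟨K, hKne, ?_⟩
  set M := ∏ i, N i with hM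
  have hMpos : 0 < M := Finset.prod_pos (fun i _ => (hp i).pos)
  have hcopos : ∀ i, 0 < co N i := by
    intro i; unfold co; exact Finset.prod_pos (fun i _ => (hp i).pos)
  have hV := V_part ρ hρ0 hρ1 K' hh hh0 (fun j => a j * co N j)
    (fun j => Nat.mul_pos (ha j) (hcopos j))
    (fun i j k l hk hl he => freq_inj N a hp hinj ha haN K' hKN i j k l hk hl he)
    (c * t / 4) (by positivity)
  -- product identity
  have hW : ∀ w : ℂ, ∏ j, ‖1 - w ^ (a j)‖ = (∏ b : Fin K₀, ‖1 - w ^ ((b : ℕ) + 1)‖ ^ μ b) ^ t := by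
    intro w
    rw [Fintype.prod_sigma]
    simp only [a]
    rw [← Finset.prod_pow]
    apply Finset.prod_congr rfl
    intro b _
    rw [Finset.prod_const, Finset.card_univ, Fintype.card_fin, ← pow_mul, mul_comm]
  let P : Ω → Prop := fun x => Real.exp (-c) < ∏ a : Fin K₀, ‖1 - z x ^ ((a : ℕ) + 1)‖ ^ μ a
  have hPmeas : MeasurableSet {x | P x} := by
    apply measurableSet_lt measurable_const
    apply Finset.measurable_prod
    intro b _
    exact ((continuous_const.sub (continuous_z.pow _)).norm.pow _).measurable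
  have hsub : {x : Ω | ε ≤ ‖∑ e ∈ K, z x ^ e‖} ⊆ {x | P (M • x)} ∪
      {x | ∏ j, ‖1 - z x ^ (a j * co N j)‖
        < Real.exp (-((Fintype.card ι : ℝ) * ((1 - ρ) / hh + err ρ K')) - c * t / 4)} := by
    intro x hx
    by_contra hcon
    simp only [Set.mem_union, Set.mem_ofPred_eq, not_or, not_lt, P] at hcon hx
    obtain ⟨hc1, hc2⟩ := hcon
    have hKx := hK (z x)
    have hzM : z x ^ M = z (M • x) := (z_nsmul M x).symm
    rw [hzM] at hKx
    rw [hW (z (M • x))] at hKx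
    have h1 : (∏ b : Fin K₀, ‖1 - z (M • x) ^ ((b : ℕ) + 1)‖ ^ μ b) ^ t ≤ Real.exp (-(c * t)) := by
      have : Real.exp (-(c * t)) = Real.exp (-c) ^ t := by
        rw [← Real.exp_nat_mul]; congr 1; ring
      rw [this]
      apply pow_le_pow_left₀ _ hc1
      exact Finset.prod_nonneg (fun _ _ => by positivity)
    have h2 : Real.exp (-(c * t / 2)) ≤ ∏ j, ‖1 - z x ^ (a j * co N j)‖ := by
      refine le_trans (Real.exp_le_exp.2 ?_) hc2
      have h3 : (Fintype.card ι : ℝ) * ((1 - ρ) / hh + err ρ K') ≤ c * t / 4 := by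
        calc (Fintype.card ι : ℝ) * ((1 - ρ) / hh + err ρ K')
            ≤ (Fintype.card ι : ℝ) * (c * t / (4 * ((Fintype.card ι : ℝ) + 1))) := by gcongr
          _ ≤ c * t / 4 := by
            rw [mul_div_assoc', div_le_div_iff₀ (by positivity) (by norm_num)]
            nlinarith
      linarith
    have h4 : ε * Real.exp (-(c * t / 2)) ≤ Real.exp (-(c * t)) := by
      calc ε * Real.exp (-(c * t / 2)) ≤ ‖∑ e ∈ K, z x ^ e‖ * ∏ j, ‖1 - z x ^ (a j * co N j)‖ := by
            gcongr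
        _ = _ := hKx
        _ ≤ _ := h1
    have h5 : Real.exp (-(c * t)) = Real.exp (-(c * t / 2)) * Real.exp (-(c * t / 2)) := by
      rw [← Real.exp_add]; congr 1; ring
    rw [h5] at h4
    have h6 : ε ≤ Real.exp (-(c * t / 2)) := le_of_mul_le_mul_right h4 (Real.exp_pos _)
    linarith
  calc (volume : Measure Ω).real {x : Ω | ε ≤ ‖∑ e ∈ K, z x ^ e‖}
      ≤ (volume : Measure Ω).real ({x | P (M • x)} ∪ {x | ∏ j, ‖1 - z x ^ (a j * co N j)‖
        < Real.exp (-((Fintype.card ι : ℝ) * ((1 - ρ) / hh + err ρ K')) - c * t / 4)}) :=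
        measureReal_mono hsub
    _ ≤ (volume : Measure Ω).real {x | P (M • x)}
        + ((Fintype.card ι : ℝ) * (volume : Measure Ω).real {x | ‖1 - z x‖ < hh}
        + 2 * (Fintype.card ι : ℝ) / (c * t / 4) ^ 2) :=
        (measureReal_union_le _ _).trans (by gcongr)
    _ ≤ η + (η + η) := by
        have e1 : (volume : Measure Ω).real {x | P (M • x)} ≤ η := by
          rw [measure_comp M hMpos P hPmeas]; exact h
        have e2 : (Fintype.card ι : ℝ) * (volume : Measure Ω).real {x | ‖1 - z x‖ < hh} ≤ η := by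
          calc (Fintype.card ι : ℝ) * (volume : Measure Ω).real {x | ‖1 - z x‖ < hh}
              ≤ (Fintype.card ι : ℝ) * (η / ((Fintype.card ι : ℝ) + 1)) := by gcongr
            _ ≤ η := by
              rw [mul_div_assoc', div_le_iff₀ (by positivity)]
              nlinarith
        have e3 : 2 * (Fintype.card ι : ℝ) / (c * t / 4) ^ 2 ≤ η := by rw [hcard]; exact ht2
        linarith
    _ = 3 * η := by ring

end Konyagin305
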