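import Pool.Agent.Konyagin305.Sudler

set_option autoImplicit false
open MeasureTheory Finset Filter

namespace Konyagin305

lemma W_le (K L R : ℕ) (v : ℕ → ℕ) (a : ℕ) : W K L R v a ≤ (R : ℤ) * L * K := by
  unfold W
  have h1 : 0 ≤ ∑ i ∈ range R,
      (if (v i ∣ a ∧ a / v i < L) then ((L : ℤ) - ((a / v i : ℕ) : ℤ)) else 0) := by
    apply Finset.sum_nonneg
    intro i _
    split_ifs with h
    · have : ((a / v i : ℕ) : ℤ) < L := by exact_mod_cast h.2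
      linarith
    · exact le_refl _
  have h2 : (0 : ℤ) ≤ 2 * K * ∑ i ∈ range R,
      (if (v i ∣ a ∧ a / v i < L) then ((L : ℤ) - ((a / v i : ℕ) : ℤ)) else 0) := by positivity
  have h3 : (R : ℤ) * L * (K - a) ≤ (R : ℤ) * L * K := by
    have : (0 : ℤ) ≤ (R : ℤ) * L * a := by positivity
    nlinarith
  linarith

lemma prod_bound (K L R : ℕ) (v : ℕ → ℕ) (hv : ∀ i, 0 < v i) (hL : 0 < L) (hR : 0 < R)
    (hvL : ∀ i < R, v i * L ≤ K) (hW : ∀ a, 0 < a → a < K → 0 ≤ W K L R v a)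
    (ρ : ℝ) (h0 : 0 < ρ) (h1 : ρ < 1) (N : ℕ) (x : Ω) :
    ∏ a ∈ Ico 1 K, ‖1 - z x ^ a‖ ^ (W K L R v a).toNat
      ≤ Real.exp ((R : ℝ) * L * K * (((1 - ρ) + err ρ N) * K
        - (∑ k ∈ Icc 1 N, ρ ^ k / k) / 2 + ∑ k ∈ Icc 1 N, (ρ ^ k / k) * Yk L R v k x)) := by
  set δ := (1 - ρ) + err ρ N with hδ
  have hδ0 : 0 ≤ δ := by
    have := err_nonneg ρ h0 h1 N
    rw [hδ]; linarith
  have hcast : ∀ a ∈ Ico 1 K, (((W K L R v a).toNat : ℕ) : ℝ) = (W K L R v a : ℝ) := by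
    intro a ha
    rw [Finset.mem_Ico] at ha
    have := Int.toNat_of_nonneg (hW a (by omega) ha.2)
    exact_mod_cast this
  have hterm : ∀ a ∈ Ico 1 K, ‖1 - z x ^ a‖ ^ (W K L R v a).toNat
      ≤ Real.exp ((W K L R v a : ℝ) * (δ - ∑ k ∈ Icc 1 N, ρ ^ k / k * ((z x ^ k) ^ a).re)) := by
    intro a ha
    have hub := upper_bound ρ h0 h1 N (z x ^ a) (by rw [norm_pow, norm_z, one_pow])
    have h2 : ‖1 - z x ^ a‖ ^ (W K L R v a).toNat
        ≤ (Real.exp (δ - ∑ k ∈ Icc 1 N, ρ ^ k / k * ((z x ^ a) ^ k).re)) ^ (W K L R v a).toNat :=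
      pow_le_pow_left₀ (norm_nonneg _) hub _
    refine h2.trans (le_of_eq ?_)
    rw [← Real.exp_nat_mul, hcast a ha]
    congr 3
    apply Finset.sum_congr rfl
    intro k _
    rw [← pow_mul, ← pow_mul, mul_comm a k]
  refine (Finset.prod_le_prod (fun a _ => by positivity) hterm).trans ?_
  rw [← Real.exp_sum]
  apply Real.exp_le_exp.2
  -- rearrange
  have h3 : ∑ a ∈ Ico 1 K, (W K L R v a : ℝ) * (δ - ∑ k ∈ Icc 1 N, ρ ^ k / k * ((z x ^ k) ^ a).re)
      = δ * ∑ a ∈ Ico 1 K, (W K L R v a : ℝ)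
        - ∑ k ∈ Icc 1 N, ρ ^ k / k * ∑ a ∈ Ico 1 K, (W K L R v a : ℝ) * ((z x ^ k) ^ a).re := by
    have e1 : ∀ a ∈ Ico 1 K, (W K L R v a : ℝ) *
        (δ - ∑ k ∈ Icc 1 N, ρ ^ k / k * ((z x ^ k) ^ a).re)
        = δ * (W K L R v a : ℝ) - ∑ k ∈ Icc 1 N,
          ρ ^ k / k * ((W K L R v a : ℝ) * ((z x ^ k) ^ a).re) := by
      intro a _
      rw [mul_sub, Finset.mul_sum]
      congr 1
      · ring
      · apply Finset.sum_congr rfl
        intro k _
        ring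
    rw [Finset.sum_congr rfl e1, Finset.sum_sub_distrib, ← Finset.mul_sum]
    congr 1
    rw [Finset.sum_comm]
    apply Finset.sum_congr rfl
    intro k _
    rw [Finset.mul_sum]
  rw [h3]
  have h4 : ∑ a ∈ Ico 1 K, (W K L R v a : ℝ) ≤ (R : ℝ) * L * K * K := by
    calc ∑ a ∈ Ico 1 K, (W K L R v a : ℝ) ≤ ∑ a ∈ Ico 1 K, (R : ℝ) * L * K := by
          apply Finset.sum_le_sum
          intro a _
          exact_mod_cast W_le K L R v a
      _ = ((K - 1 : ℕ) : ℝ) * ((R : ℝ) * L * K) := by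
          rw [Finset.sum_const, Nat.card_Ico, nsmul_eq_mul]
      _ ≤ (K : ℝ) * ((R : ℝ) * L * K) := by
          gcongr
          omega
      _ = _ := by ring
  have h5 : ∀ k ∈ Icc 1 N, ρ ^ k / k * ((R : ℝ) * L * K / 2 - (R : ℝ) * L * K * Yk L R v k x)
      ≤ ρ ^ k / k * ∑ a ∈ Ico 1 K, (W K L R v a : ℝ) * ((z x ^ k) ^ a).re := by
    intro k _
    have h6 := weights_cos K L R v hv hvL (z x ^ k) (by rw [norm_pow, norm_z, one_pow])
    have h7 : (K : ℝ) * ∑ i ∈ range R, G L ((z x ^ k) ^ v i) = (R : ℝ) * L * K * Yk L R v k x := by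
      unfold Yk
      rw [← Finset.sum_div]
      have hL' : (0 : ℝ) < L := by exact_mod_cast hL
      have hR' : (0 : ℝ) < R := by exact_mod_cast hR
      simp_rw [← pow_mul]
      field_simp
    rw [h7] at h6
    have : 0 ≤ ρ ^ k / k := by positivity
    exact mul_le_mul_of_nonneg_left h6 this
  have h8 := Finset.sum_le_sum h5
  have h9 : ∑ k ∈ Icc 1 N, ρ ^ k / k * ((R : ℝ) * L * K / 2 - (R : ℝ) * L * K * Yk L R v k x)
      = (R : ℝ) * L * K * ((∑ k ∈ Icc 1 N, ρ ^ k / k) / 2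
        - ∑ k ∈ Icc 1 N, (ρ ^ k / k) * Yk L R v k x) := by
    rw [mul_sub, Finset.sum_div, Finset.mul_sum, Finset.mul_sum, ← Finset.sum_sub_distrib]
    apply Finset.sum_congr rfl
    intro k _
    ring
  rw [h9] at h8
  have h10 : δ * ∑ a ∈ Ico 1 K, (W K L R v a : ℝ) ≤ δ * ((R : ℝ) * L * K * K) := by gcongr
  nlinarith

/-- the measure estimate with all parameters explicit -/
lemma main_est (K L R k1 : ℕ) (v : ℕ → ℕ) (hv : ∀ i, 0 < v i) (hL : 0 < L) (hR : 0 < R)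
    (hvL : ∀ i < R, v i * L ≤ K) (hW : ∀ a, 0 < a → a < K → 0 ≤ W K L R v a)
    (hK : 2 ≤ K) (hk1 : 1 ≤ k1) (hk1K : k1 ≤ K) (hlog : 12 ≤ Real.log K)
    (τ : ℝ) (hτ0 : 0 < τ) (hτ1 : τ < 1) :
    (volume : Measure Ω).real {x | Real.exp (-((R : ℝ) * L * K)) <
        ∏ a ∈ Ico 1 K, ‖1 - z x ^ a‖ ^ (W K L R v a).toNat}
      ≤ 2 * Real.sqrt k1 * (R / Real.sqrt (R * L)) * ((L : ℝ) ^ τ * (2 / τ))
        + (Real.log K - Real.log k1 + 2) / (Real.log K / 8) := by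
  have hK0 : (0 : ℝ) < K := by positivity
  have hK2 : (2 : ℝ) ≤ K := by exact_mod_cast hK
  set ρ : ℝ := 1 - 1 / K with hρ
  have hinv : 0 < 1 / (K : ℝ) := by positivity
  have hinv2 : 1 / (K : ℝ) ≤ 1 / 2 := by
    apply one_div_le_one_div_of_le (by norm_num) hK2
  have h0 : 0 < ρ := by rw [hρ]; linarith
  have h1 : ρ < 1 := by rw [hρ]; linarith
  -- choose N
  obtain ⟨N, hN1, hN2⟩ : ∃ N : ℕ, k1 ≤ N ∧ err ρ N ≤ 1 / K := by
    refine ⟨k1 + K * K, by omega, ?_⟩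
    unfold err
    have e1 : (1 - ρ)⁻¹ = K := by rw [hρ]; simp
    rw [e1]
    have e2 : ρ ^ (k1 + K * K + 1) ≤ 1 := pow_le_one₀ h0.le h1.le
    push_cast
    rw [div_le_div_iff₀ (by positivity) hK0]
    have : (0 : ℝ) ≤ k1 := by positivity
    nlinarith
  have hB := abs_le.1 (sum_beta_le ρ h0 h1 N)
  have hlogρ : Real.log (1 - ρ) = -Real.log K := by
    rw [hρ]
    have : (1 : ℝ) - (1 - 1 / K) = (K : ℝ)⁻¹ := by rw [one_div]; ring
    rw [this, Real.log_inv]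
  rw [hlogρ] at hB
  set B := ∑ k ∈ Icc 1 N, ρ ^ k / (k : ℝ) with hBdef
  have hB1 : Real.log K - 1 ≤ B := by linarith [hB.1, hB.2]
  have hB2 : B ≤ Real.log K + 1 := by linarith [hB.1, hB.2]
  have hsplit : Icc 1 N = Icc 1 k1 ∪ Ioc k1 N := by
    ext k; simp only [Finset.mem_Icc, Finset.mem_union, Finset.mem_Ioc]; omega
  have hdisj : Disjoint (Icc 1 k1) (Ioc k1 N) := by
    rw [Finset.disjoint_left]; intro k hk hk2
    simp only [Finset.mem_Icc, Finset.mem_Ioc] at hk hk2; omega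
  have hBs : B = ∑ k ∈ Icc 1 k1, ρ ^ k / (k : ℝ) + ∑ k ∈ Ioc k1 N, ρ ^ k / (k : ℝ) := by
    rw [hBdef, hsplit, Finset.sum_union hdisj]
  have hlow := sum_beta_ge K k1 hK hk1 hk1K
  have hS2 : ∑ k ∈ Ioc k1 N, ρ ^ k / (k : ℝ) ≤ Real.log K - Real.log k1 + 2 := by
    rw [← hρ] at hlow
    linarith
  have hsub : {x : Ω | Real.exp (-((R : ℝ) * L * K)) <
        ∏ a ∈ Ico 1 K, ‖1 - z x ^ a‖ ^ (W K L R v a).toNat}
      ⊆ {x | 1 ≤ ∑ k ∈ Icc 1 k1, (ρ ^ k / k) * Yk L R v k x}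
        ∪ {x | Real.log K / 8 ≤ ∑ k ∈ Ioc k1 N, (ρ ^ k / k) * Yk L R v k x} := by
    intro x hx
    by_contra hcon
    simp only [Set.mem_union, Set.mem_ofPred_eq, not_or, not_le] at hcon hx
    obtain ⟨hc1, hc2⟩ := hcon
    have hpb := prod_bound K L R v hv hL hR hvL hW ρ h0 h1 N x
    have hYs : ∑ k ∈ Icc 1 N, (ρ ^ k / k) * Yk L R v k x
        = ∑ k ∈ Icc 1 k1, (ρ ^ k / k) * Yk L R v k x
          + ∑ k ∈ Ioc k1 N, (ρ ^ k / k) * Yk L R v k x := by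
      rw [hsplit, Finset.sum_union hdisj]
    have hexp := Real.exp_lt_exp.1 (lt_of_lt_of_le hx hpb)
    have hRLK : (0 : ℝ) < (R : ℝ) * L * K := by
      have hL' : (0 : ℝ) < L := by exact_mod_cast hL
      have hR' : (0 : ℝ) < R := by exact_mod_cast hR
      positivity
    have h2 : -1 < ((1 - ρ) + err ρ N) * K - B / 2 + ∑ k ∈ Icc 1 N, (ρ ^ k / k) * Yk L R v k x := by
      by_contra hle
      push Not at hle
      have := mul_le_mul_of_nonneg_left hle hRLK.le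
      linarith
    have h3 : ((1 - ρ) + err ρ N) * K ≤ 2 := by
      have e1 : (1 - ρ) = 1 / K := by rw [hρ]; ring
      rw [e1]
      calc (1 / (K : ℝ) + err ρ N) * K ≤ (1 / K + 1 / K) * K := by gcongr
        _ = 2 := by field_simp; norm_num
    rw [hYs] at h2
    linarith
  refine (measureReal_mono hsub).trans ((measureReal_union_le _ _).trans ?_)
  have hβ : ∀ k : ℕ, 0 ≤ ρ ^ k / (k : ℝ) := fun k => by positivity
  have hY1 := Y1_bound L R hL hR v hv k1 (fun k => ρ ^ k / k) (fun k _ => hβ k)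
    (fun k hk => by
      have hk1 : 1 ≤ k := (Finset.mem_Icc.1 hk).1
      have hk0 : (0 : ℝ) < k := by exact_mod_cast hk1
      have : ρ ^ k ≤ 1 := pow_le_one₀ h0.le h1.le
      gcongr) τ hτ0 hτ1
  have hY2 := Y2_bound L R hL hR v hv (Ioc k1 N)
    (fun k hk => by have := (Finset.mem_Ioc.1 hk).1; omega) (fun k => ρ ^ k / k)
    (fun k _ => hβ k) (Real.log K / 8) (by linarith)
  have hY2' : (∑ k ∈ Ioc k1 N, ρ ^ k / (k : ℝ)) / (Real.log K / 8)
      ≤ (Real.log K - Real.log k1 + 2) / (Real.log K / 8) := by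
    have : 0 < Real.log K / 8 := by linarith
    gcongr
  exact add_le_add hY1 (hY2.trans hY2')

lemma alg_aux (A q R s : ℝ) (hA : 0 < A) (hq : 0 < q) :
    2 * A * (R / (A * q ^ 2)) * (q * (8 * (s + 1))) = 16 * (s + 1) * R / q := by
  field_simp
  ring

lemma alg_aux2 (q R s η : ℝ) (h : 32 * (s + 1) * R < q * η) :
    16 * (s + 1) * R ≤ η / 2 * q := by
  nlinarith

lemma finish (K : ℕ) (w : ℕ → ℕ) (c : ℝ) (hc : 0 < c) (η : ℝ)
    (h : (volume : Measure Ω).real {x | Real.exp (-c) <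
        ∏ a ∈ Ico 1 K, ‖1 - z x ^ a‖ ^ (w a)} ≤ η) :
    ∃ (K₀ : ℕ) (μ : Fin K₀ → ℕ) (c : ℝ), 0 < c ∧ (volume : Measure Ω).real
      {x | Real.exp (-c) < ∏ a : Fin K₀, ‖1 - z x ^ ((a : ℕ) + 1)‖ ^ μ a} ≤ η := by
  refine ⟨K - 1, fun a => w ((a : ℕ) + 1), c, hc, ?_⟩
  have hprod : ∀ x : Ω, ∏ a : Fin (K - 1), ‖1 - z x ^ ((a : ℕ) + 1)‖ ^ w ((a : ℕ) + 1)
      = ∏ a ∈ Ico 1 K, ‖1 - z x ^ a‖ ^ w a := by
    intro x
    rw [Finset.prod_Ico_eq_prod_range]
    rw [← Fin.prod_univ_eq_prod_range (fun i => ‖1 - z x ^ (1 + i)‖ ^ w (1 + i))]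
    apply Finset.prod_congr rfl
    intro a _
    rw [add_comm 1 (a : ℕ)]
  simp_rw [hprod]
  exact h

theorem step1 (η : ℝ) (hη : 0 < η) :
    ∃ (K₀ : ℕ) (μ : Fin K₀ → ℕ) (c : ℝ), 0 < c ∧ (volume : Measure Ω).real
      {x | Real.exp (-c) < ∏ a : Fin K₀, ‖1 - z x ^ ((a : ℕ) + 1)‖ ^ μ a} ≤ η := by
  obtain ⟨s, hs⟩ := exists_nat_gt (48 / η)
  set R : ℕ := 4 * (s + 1 + 2) with hR
  obtain ⟨q, hq⟩ := exists_nat_gt (Real.exp ((R + 1) * Real.log 2 + 14)
    + 32 * (s + 1) * R / η)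
  have hRr : (1 : ℝ) ≤ R := by
    have : 1 ≤ R := by omega
    exact_mod_cast this
  have hR0 : 0 < R := by omega
  have hq1 : Real.exp ((R + 1) * Real.log 2 + 14) < q := by
    have : 0 ≤ 32 * (s + 1) * R / η := by positivity
    linarith
  have hq2 : 32 * (s + 1) * R / η < q := by
    have := Real.exp_pos ((R + 1) * Real.log 2 + 14)
    linarith
  have hlog2 : 0 < Real.log 2 := Real.log_pos (by norm_num)
  have hq0 : (0 : ℝ) < q := lt_trans (Real.exp_pos _) hq1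
  have hlogq : (R + 1) * Real.log 2 + 14 < Real.log q := by
    rw [Real.lt_log_iff_exp_lt hq0]; exact hq1
  have hRlog : 0 < ((R : ℝ) + 1) * Real.log 2 := by positivity
  have hq2' : 2 ≤ q := by
    have h1 : (2 : ℝ) ≤ q := by
      have h2 : (14 : ℝ) + 1 ≤ Real.exp 14 := Real.add_one_le_exp 14
      have h3 : Real.exp 14 ≤ Real.exp ((R + 1) * Real.log 2 + 14) :=
        Real.exp_le_exp.2 (by linarith)
      linarith
    exact_mod_cast h1
  set Z : ℕ := q ^ 4 with hZ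
  have hZ2 : 2 ≤ Z := by
    calc 2 ≤ q := hq2'
      _ = q ^ 1 := (pow_one q).symm
      _ ≤ q ^ 4 := Nat.pow_le_pow_right (by omega) (by norm_num)
  have hlogZ : Real.log Z = 4 * Real.log q := by
    rw [hZ]; push_cast; rw [Real.log_pow]; norm_num
  have hlogZ' : (R + 1) * Real.log 2 + 14 < Real.log Z := by
    rw [hlogZ]; linarith
  obtain ⟨v, hvp, hvm, hvZ, hvle⟩ := primes_chain Z hZ2
  set L : ℕ := Z ^ (s + 1) with hL
  set K : ℕ := 2 ^ (R + 1) * Z ^ (s + 2) with hK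
  set k1 : ℕ := Z ^ s with hk1
  have hL0 : 0 < L := by positivity
  have hZR : 2 ^ (R + 1) ≤ Z := by
    have h1 : ((2 ^ (R + 1) : ℕ) : ℝ) ≤ (Z : ℝ) := by
      rw [← Real.log_le_log_iff (by positivity) (by positivity)]
      push_cast
      rw [Real.log_pow]
      push_cast
      linarith
    exact_mod_cast h1
  have hvL2 : ∀ i < R, 2 * (v i * L) ≤ K := by
    intro i hi
    have h1 : v i ≤ 2 ^ R * Z := by
      refine (hvle i).trans ?_
      gcongr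
      · norm_num
      · omega
    calc 2 * (v i * L) ≤ 2 * (2 ^ R * Z * Z ^ (s + 1)) := by rw [hL]; gcongr
      _ = K := by rw [hK]; ring
  have hvL : ∀ i < R, v i * L ≤ K := fun i hi => by have := hvL2 i hi; omega
  have hKZ : K ≤ Z ^ (s + 1 + 2) := by
    calc K ≤ Z * Z ^ (s + 2) := by rw [hK]; gcongr
      _ = Z ^ (s + 1 + 2) := by ring
  have hW : ∀ a, 0 < a → a < K → 0 ≤ W K L R v a := fun a ha haK =>
    W_nonneg K L R (s + 1) Z v hvp hvm hZ2 hvZ hR hKZ hvL2 a ha haK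
  have hK2 : 2 ≤ K := by
    have h1 : 2 ≤ 2 ^ (R + 1) := by
      calc 2 = 2 ^ 1 := rfl
        _ ≤ 2 ^ (R + 1) := Nat.pow_le_pow_right (by norm_num) (by omega)
    have h2 : 1 ≤ Z ^ (s + 2) := Nat.one_le_pow _ _ (by omega)
    rw [hK]; nlinarith
  have hk11 : 1 ≤ k1 := Nat.one_le_pow _ _ (by omega)
  have hk1K : k1 ≤ K := by
    rw [hK, hk1]
    calc Z ^ s ≤ Z ^ (s + 2) := Nat.pow_le_pow_right (by omega) (by omega)
      _ = 1 * Z ^ (s + 2) := (one_mul _).symm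
      _ ≤ _ := Nat.mul_le_mul_right _ (Nat.one_le_pow _ _ (by norm_num))
  have hZr : (0 : ℝ) < Z := by positivity
  have hlogK : Real.log K = (R + 1) * Real.log 2 + (s + 2) * Real.log Z := by
    rw [hK]; push_cast
    rw [Real.log_mul (by positivity) (by positivity), Real.log_pow, Real.log_pow]
    push_cast; ring
  have hlogk1 : Real.log k1 = s * Real.log Z := by
    rw [hk1]; push_cast; rw [Real.log_pow]
  have hlogZpos : 14 < Real.log Z := by linarith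
  have hs0 : (0 : ℝ) ≤ s := by positivity
  have hlogKge : (s + 2) * Real.log Z ≤ Real.log K := by rw [hlogK]; linarith
  have hlogK12 : 12 ≤ Real.log K := by nlinarith
  set τ : ℝ := 1 / (4 * (s + 1)) with hτ
  have hτ0 : 0 < τ := by positivity
  have hτ1 : τ < 1 := by
    rw [hτ, div_lt_one (by positivity)]; linarith
  have hmain := main_est K L R k1 v (fun i => (hvp i).pos) hL0 hR0 hvL hW hK2 hk11 hk1K hlogK12
    τ hτ0 hτ1
  have hLτ : (L : ℝ) ^ τ = q := by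
    have e1 : (L : ℝ) = (q : ℝ) ^ ((4 * (s + 1) : ℕ) : ℝ) := by
      rw [Real.rpow_natCast, hL, hZ]; push_cast; rw [← pow_mul]
    rw [e1, ← Real.rpow_mul hq0.le, hτ]
    push_cast
    rw [mul_one_div_cancel (by positivity), Real.rpow_one]
  have hterm1 : 2 * Real.sqrt k1 * (R / Real.sqrt (R * L)) * ((L : ℝ) ^ τ * (2 / τ)) ≤ η / 2 := by
    rw [hLτ]
    have e1 : Real.sqrt k1 = (q : ℝ) ^ (2 * s) := by
      have : (k1 : ℝ) = ((q : ℝ) ^ (2 * s)) ^ 2 := by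
        rw [hk1, hZ]; push_cast; rw [← pow_mul, ← pow_mul]; congr 1; ring
      rw [this, Real.sqrt_sq (by positivity)]
    have e2 : Real.sqrt (R * L) = Real.sqrt R * (q : ℝ) ^ (2 * s + 2) := by
      have : (L : ℝ) = ((q : ℝ) ^ (2 * s + 2)) ^ 2 := by
        rw [hL, hZ]; push_cast; rw [← pow_mul, ← pow_mul]; congr 1; ring
      rw [this, Real.sqrt_mul (by positivity), Real.sqrt_sq (by positivity)]
    have e3 : 1 ≤ Real.sqrt R := by rw [Real.one_le_sqrt]; exact hRr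
    have e4 : R / Real.sqrt (R * L) ≤ R / (q : ℝ) ^ (2 * s + 2) := by
      rw [e2]
      apply div_le_div_of_nonneg_left (by positivity) (by positivity)
      have : (0 : ℝ) < (q : ℝ) ^ (2 * s + 2) := by positivity
      nlinarith
    have e5 : 2 / τ = 8 * (s + 1) := by rw [hτ]; field_simp; ring
    rw [e1, e5]
    calc 2 * (q : ℝ) ^ (2 * s) * (R / Real.sqrt (R * L)) * (q * (8 * (s + 1)))
        ≤ 2 * (q : ℝ) ^ (2 * s) * (R / (q : ℝ) ^ (2 * s + 2)) * (q * (8 * (s + 1))) := by gcongr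
      _ = 16 * (s + 1) * R / q := by
        rw [pow_add]
        exact alg_aux _ _ _ _ (by positivity) hq0
      _ ≤ η / 2 := by
        rw [div_lt_iff₀ hη] at hq2
        rw [div_le_iff₀ hq0]
        exact alg_aux2 _ _ _ _ hq2
  have hterm2 : (Real.log K - Real.log k1 + 2) / (Real.log K / 8) ≤ η / 2 := by
    have e1 : Real.log K - Real.log k1 + 2 ≤ 3 * Real.log Z := by
      rw [hlogK, hlogk1]; nlinarith
    rw [div_lt_iff₀ hη] at hs
    rw [div_le_iff₀ (by linarith)]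
    have e2 : 3 * Real.log Z ≤ η / 2 * (((s : ℝ) + 2) * Real.log Z / 8) := by
      have : 48 ≤ ((s : ℝ) + 2) * η := by nlinarith
      nlinarith
    have e3 : η / 2 * (((s : ℝ) + 2) * Real.log Z / 8) ≤ η / 2 * (Real.log K / 8) := by
      gcongr
    linarith
  have hfin : (volume : Measure Ω).real {x | Real.exp (-((R : ℝ) * L * K)) <
        ∏ a ∈ Ico 1 K, ‖1 - z x ^ a‖ ^ (W K L R v a).toNat} ≤ η := by linarith
  have hcpos : (0 : ℝ) < (R : ℝ) * L * K := by positivity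
  clear_value K L k1 Z
  exact finish K (fun a => (W K L R v a).toNat) _ hcpos η hfin

end Konyagin305
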