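import Pool.Agent.Konyagin305.Basic

set_option autoImplicit false
open MeasureTheory Finset

namespace Konyagin305

instance instProbΩ : IsProbabilityMeasure (volume : Measure Ω) := ⟨UnitAddCircle.measure_univ⟩

/-! ### Newman polynomials from the Chinese remainder theorem -/

section CRT

variable {ι : Type*} [Fintype ι] [DecidableEq ι]

/-- product of the other moduli -/
def co (N : ι → ℕ) (j : ι) : ℕ := ∏ i ∈ univ.erase j, N i

lemma co_mul (N : ι → ℕ) (j : ι) : co N j * N j = ∏ i, N i := by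
  unfold co
  exact Finset.prod_erase_mul _ _ (Finset.mem_univ j)

lemma dvd_co (N : ι → ℕ) {i j : ι} (h : i ≠ j) : N i ∣ co N j := by
  unfold co
  exact Finset.dvd_prod_of_mem _ (by simp [h])

lemma coprime_co (N : ι → ℕ) (hp : ∀ i, (N i).Prime) (hinj : Function.Injective N) (j : ι) :
    Nat.Coprime (N j) (co N j) := by
  unfold co
  apply Nat.Coprime.prod_right
  intro i hi
  rw [Nat.coprime_primes (hp j) (hp i)]
  intro h
  have := hinj h
  simp [this] at hi

lemma exp_inj (N a : ι → ℕ) (hp : ∀ i, (N i).Prime) (hinj : Function.Injective N)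
    (ha : ∀ i, 0 < a i) (haN : ∀ i, a i < N i) (k k' : ι → ℕ) (hk : ∀ i, k i < N i)
    (hk' : ∀ i, k' i < N i)
    (h : ∑ j, k j * (a j * co N j) = ∑ j, k' j * (a j * co N j)) : k = k' := by
  funext i
  have hmod : ∀ q : ι → ℕ, (∑ j, q j * (a j * co N j)) ≡ q i * (a i * co N i) [MOD N i] := by
    intro q
    rw [← Finset.add_sum_erase _ _ (Finset.mem_univ i)]
    have h1 : N i ∣ ∑ j ∈ univ.erase i, q j * (a j * co N j) := by
      apply Finset.dvd_sum
      intro j hj
      have hij : i ≠ j := by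
        have := Finset.ne_of_mem_erase hj
        exact fun h => this h.symm
      exact Dvd.dvd.mul_left (Dvd.dvd.mul_left (dvd_co N hij) _) _
    have h2 : (∑ j ∈ univ.erase i, q j * (a j * co N j)) ≡ 0 [MOD N i] :=
      (Nat.modEq_zero_iff_dvd).2 h1
    have h3 := Nat.ModEq.add_left (q i * (a i * co N i)) h2
    simpa using h3
  have h1 := hmod k
  have h2 := hmod k'
  rw [h] at h1
  have h3 : k i * (a i * co N i) ≡ k' i * (a i * co N i) [MOD N i] := h1.symm.trans h2
  have hcop : Nat.gcd (N i) (a i * co N i) = 1 := by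
    apply Nat.Coprime.mul_right
    · exact (Nat.Prime.coprime_iff_not_dvd (hp i)).2
        (fun hd => absurd (Nat.le_of_dvd (ha i) hd) (by have := haN i; omega))
    · exact coprime_co N hp hinj i
  have h4 : k i ≡ k' i [MOD N i] := Nat.ModEq.cancel_right_of_coprime hcop h3
  have h5 := h4
  unfold Nat.ModEq at h5
  rwa [Nat.mod_eq_of_lt (hk i), Nat.mod_eq_of_lt (hk' i)] at h5

lemma newman (N a : ι → ℕ) (hp : ∀ i, (N i).Prime) (hinj : Function.Injective N)
    (ha : ∀ i, 0 < a i) (haN : ∀ i, a i < N i) :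
    ∃ K : Finset ℕ, K.Nonempty ∧ ∀ w : ℂ,
      ‖∑ e ∈ K, w ^ e‖ * ∏ j, ‖1 - w ^ (a j * co N j)‖ = ∏ j, ‖1 - (w ^ (∏ i, N i)) ^ (a j)‖ := by
  classical
  let T : Finset (ι → ℕ) := Fintype.piFinset (fun j => range (N j))
  let E : (ι → ℕ) → ℕ := fun k => ∑ j, k j * (a j * co N j)
  have hE : Set.InjOn E (T : Set (ι → ℕ)) := by
    intro k hk k' hk' h
    have hk1 : ∀ i, k i < N i := by
      intro i; have := (Fintype.mem_piFinset.1 (Finset.mem_coe.1 hk)) i; simpa using this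
    have hk2 : ∀ i, k' i < N i := by
      intro i; have := (Fintype.mem_piFinset.1 (Finset.mem_coe.1 hk')) i; simpa using this
    exact exp_inj N a hp hinj ha haN k k' hk1 hk2 h
  refine ⟨T.image E, ?_, ?_⟩
  · refine ⟨E (fun _ => 0), Finset.mem_image_of_mem _ ?_⟩
    rw [Fintype.mem_piFinset]
    intro i
    simpa using (hp i).pos
  · intro w
    have h1 : ∑ e ∈ T.image E, w ^ e = ∏ j, ∑ k ∈ range (N j), (w ^ (a j * co N j)) ^ k := by
      rw [Finset.sum_image hE, Finset.prod_univ_sum]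
      apply Finset.sum_congr rfl
      intro k _
      show w ^ (∑ j, k j * (a j * co N j)) = _
      rw [← Finset.prod_pow_eq_pow_sum]
      apply Finset.prod_congr rfl
      intro j _
      rw [← pow_mul, mul_comm]
    rw [h1, norm_prod, ← Finset.prod_mul_distrib]
    apply Finset.prod_congr rfl
    intro j _
    rw [← norm_mul, geom_sum_mul_neg]
    congr 2
    rw [← pow_mul, ← pow_mul, ← co_mul N j]
    congr 1
    ring

lemma freq_inj (N a : ι → ℕ) (hp : ∀ i, (N i).Prime) (hinj : Function.Injective N)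
    (ha : ∀ i, 0 < a i) (haN : ∀ i, a i < N i) (K' : ℕ) (hK : ∀ i, K' < N i)
    (i j : ι) (k l : ℕ) (hk : 1 ≤ k ∧ k ≤ K') (_hl : 1 ≤ l ∧ l ≤ K')
    (h : k * (a i * co N i) = l * (a j * co N j)) : i = j ∧ k = l := by
  have hcopos : ∀ i, 0 < co N i := by
    intro i; unfold co; exact Finset.prod_pos (fun i _ => (hp i).pos)
  have hij : i = j := by
    by_contra hne
    have h1 : N i ∣ k * (a i * co N i) := by
      rw [h]; exact Dvd.dvd.mul_left (Dvd.dvd.mul_left (dvd_co N hne) _) _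
    have h2 : Nat.Coprime (N i) (a i * co N i) := by
      apply Nat.Coprime.mul_right
      · exact (Nat.Prime.coprime_iff_not_dvd (hp i)).2
          (fun hd => absurd (Nat.le_of_dvd (ha i) hd) (by have := haN i; omega))
      · exact coprime_co N hp hinj i
    have h3 : N i ∣ k := h2.dvd_of_dvd_mul_right h1
    have := Nat.le_of_dvd (by omega) h3
    have := hK i
    omega
  subst hij
  refine ⟨rfl, ?_⟩
  exact Nat.eq_of_mul_eq_mul_right (Nat.mul_pos (ha i) (hcopos i)) h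

end CRT

/-! ### Parseval for finite sums -/

lemma re_mul_conj (w : ℂ) (hw : ‖w‖ = 1) (m n : ℕ) :
    (w ^ m * (starRingEnd ℂ) (w ^ n)).re = (w ^ ((m - n) + (n - m))).re := by
  have hww : w * (starRingEnd ℂ) w = 1 := by
    rw [Complex.mul_conj, Complex.normSq_eq_norm_sq, hw]; simp
  have hconj : ∀ n : ℕ, w ^ n * (starRingEnd ℂ) (w ^ n) = 1 := by
    intro n
    rw [map_pow, ← mul_pow, hww, one_pow]
  rcases le_total m n with h | h
  · have e : w ^ n = w ^ m * w ^ (n - m) := by rw [← pow_add]; congr 1; omega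
    rw [e, map_mul, ← mul_assoc, hconj, one_mul, Nat.sub_eq_zero_of_le h, zero_add]
    exact Complex.conj_re _
  · have e : w ^ m = w ^ (m - n) * w ^ n := by rw [← pow_add]; congr 1; omega
    rw [e, mul_assoc, hconj, mul_one, Nat.sub_eq_zero_of_le h, add_zero]

lemma parseval {α : Type*} (I : Finset α) (c : α → ℝ) (m : α → ℕ)
    (hm : Set.InjOn m (I : Set α)) :
    ∫ x : Ω, ‖∑ i ∈ I, (c i : ℂ) * z x ^ (m i)‖ ^ 2 = ∑ i ∈ I, c i ^ 2 := by
  classical
  have h1 : ∀ x : Ω, ‖∑ i ∈ I, (c i : ℂ) * z x ^ (m i)‖ ^ 2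
      = ∑ i ∈ I, ∑ j ∈ I, c i * c j * (z x ^ ((m i - m j) + (m j - m i))).re := by
    intro x
    have h2 : (((‖∑ i ∈ I, (c i : ℂ) * z x ^ (m i)‖ ^ 2 : ℝ)) : ℂ)
        = (∑ i ∈ I, (c i : ℂ) * z x ^ (m i)) *
          (starRingEnd ℂ) (∑ i ∈ I, (c i : ℂ) * z x ^ (m i)) := by
      rw [Complex.mul_conj, Complex.normSq_eq_norm_sq]
    have h3 : ‖∑ i ∈ I, (c i : ℂ) * z x ^ (m i)‖ ^ 2
        = ((∑ i ∈ I, (c i : ℂ) * z x ^ (m i)) *
          (starRingEnd ℂ) (∑ i ∈ I, (c i : ℂ) * z x ^ (m i))).re := by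
      rw [← h2, Complex.ofReal_re]
    rw [h3, map_sum, Finset.sum_mul_sum, Complex.re_sum]
    apply Finset.sum_congr rfl
    intro i _
    rw [Complex.re_sum]
    apply Finset.sum_congr rfl
    intro j _
    rw [← re_mul_conj (z x) (norm_z x) (m i) (m j), map_mul, Complex.conj_ofReal]
    have : (c i : ℂ) * z x ^ m i * ((c j : ℂ) * (starRingEnd ℂ) (z x ^ m j))
      = ((c i * c j : ℝ) : ℂ) * (z x ^ m i * (starRingEnd ℂ) (z x ^ m j)) := by
      push_cast; ring
    rw [this, Complex.re_ofReal_mul]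
  simp_rw [h1]
  have hint : ∀ n : ℕ, ∀ c' : ℝ, Integrable (fun x : Ω => c' * (z x ^ n).re) volume := by
    intro n c'
    exact integrable_of_cont _ (continuous_const.mul (Complex.continuous_re.comp (continuous_z.pow n)))
  rw [integral_finsetSum]
  swap
  · intro i _
    exact integrable_finsetSum _ (fun j _ => hint _ _)
  apply Finset.sum_congr rfl
  intro i hi
  rw [integral_finsetSum _ (fun j _ => hint _ _)]
  rw [Finset.sum_eq_single i]
  · rw [integral_const_mul]; simp; ring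
  · intro j hj hji
    rw [integral_const_mul, integral_re_z_pow]
    · simp
    · have : m i ≠ m j := fun h => hji (hm hi hj h).symm
      omega
  · intro h; exact absurd hi h

/-! ### Lower bound for `‖1 - w‖` -/

/-- the error term -/
noncomputable def err (ρ : ℝ) (N : ℕ) : ℝ := ρ ^ (N + 1) * (1 - ρ)⁻¹ / (N + 1)

lemma err_nonneg (ρ : ℝ) (h0 : 0 < ρ) (h1 : ρ < 1) (N : ℕ) : 0 ≤ err ρ N := by
  unfold err
  have : 0 < 1 - ρ := by linarith
  positivity

lemma one_sub_ne (ρ : ℝ) (h0 : 0 < ρ) (h1 : ρ < 1) (w : ℂ) (hw : ‖w‖ = 1) :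
    0 < ‖1 - ρ * w‖ := by
  rw [norm_pos_iff]
  intro h
  have h2 : (ρ : ℂ) * w = 1 := by linear_combination -h
  have h3 : ‖(ρ : ℂ) * w‖ = 1 := by rw [h2]; simp
  rw [norm_mul, hw, mul_one, Complex.norm_real, Real.norm_of_nonneg h0.le] at h3
  linarith

lemma lower_bound (ρ : ℝ) (h0 : 0 < ρ) (h1 : ρ < 1) (N : ℕ) (h : ℝ) (hh : 0 < h)
    (w : ℂ) (hw : ‖w‖ = 1) (hw2 : h ≤ ‖1 - w‖) :
    Real.exp (-((1 - ρ) / h + err ρ N) - ∑ k ∈ Icc 1 N, ρ ^ k / k * (w ^ k).re) ≤ ‖1 - w‖ := by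
  have hpos := one_sub_ne ρ h0 h1 w hw
  have he := abs_le.1 (log_expansion ρ h0 h1 N w hw)
  have h2 : Real.exp (-(err ρ N) - ∑ k ∈ Icc 1 N, ρ ^ k / k * (w ^ k).re) ≤ ‖1 - ρ * w‖ := by
    rw [← Real.exp_log hpos]
    apply Real.exp_le_exp.2
    unfold err
    linarith [he.1]
  have h3 : ‖1 - ρ * w‖ ≤ ‖1 - w‖ * Real.exp ((1 - ρ) / h) := by
    have e1 : (1 : ℂ) - ρ * w = (1 - w) + ((1 - ρ : ℝ) : ℂ) * w := by push_cast; ring
    have e2 : ‖(1 : ℂ) - ρ * w‖ ≤ ‖1 - w‖ + (1 - ρ) := by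
      rw [e1]
      refine (norm_add_le _ _).trans ?_
      rw [norm_mul, hw, mul_one, Complex.norm_real, Real.norm_of_nonneg (by linarith)]
    have e3 : (1 - ρ) ≤ ‖1 - w‖ * ((1 - ρ) / h) := by
      rw [mul_div_assoc', le_div_iff₀ hh]
      nlinarith
    have e4 : 1 + (1 - ρ) / h ≤ Real.exp ((1 - ρ) / h) := by
      linarith [Real.add_one_le_exp ((1 - ρ) / h)]
    calc ‖(1 : ℂ) - ρ * w‖ ≤ ‖1 - w‖ + (1 - ρ) := e2
      _ ≤ ‖1 - w‖ * (1 + (1 - ρ) / h) := by linarith
      _ ≤ _ := by gcongr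
  have h4 : Real.exp (-((1 - ρ) / h + err ρ N) - ∑ k ∈ Icc 1 N, ρ ^ k / k * (w ^ k).re)
      = Real.exp (-(err ρ N) - ∑ k ∈ Icc 1 N, ρ ^ k / k * (w ^ k).re) * Real.exp (-((1 - ρ) / h)) := by
    rw [← Real.exp_add]; congr 1; ring
  rw [h4]
  calc _ ≤ (‖1 - w‖ * Real.exp ((1 - ρ) / h)) * Real.exp (-((1 - ρ) / h)) := by
        gcongr
        exact h2.trans h3
    _ = ‖1 - w‖ := by rw [mul_assoc, ← Real.exp_add]; simp

lemma upper_bound (ρ : ℝ) (h0 : 0 < ρ) (h1 : ρ < 1) (N : ℕ) (w : ℂ) (hw : ‖w‖ = 1) :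
    ‖1 - w‖ ≤ Real.exp (((1 - ρ) + err ρ N) - ∑ k ∈ Icc 1 N, ρ ^ k / k * (w ^ k).re) := by
  have hpos := one_sub_ne ρ h0 h1 w hw
  have he := abs_le.1 (log_expansion ρ h0 h1 N w hw)
  refine (norm_le_damped ρ h0 h1 w hw).trans ?_
  rw [show (((1 - ρ) + err ρ N) - ∑ k ∈ Icc 1 N, ρ ^ k / k * (w ^ k).re)
    = (1 - ρ) + (err ρ N - ∑ k ∈ Icc 1 N, ρ ^ k / k * (w ^ k).re) by ring, Real.exp_add]
  gcongr
  rw [← Real.log_le_iff_le_exp hpos]
  unfold err
  linarith [he.2]

/-! ### the small set `‖1 - z‖ < h` -/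

lemma exists_h (ε : ℝ) (hε : 0 < ε) :
    ∃ h : ℝ, 0 < h ∧ (volume : Measure Ω).real {x | ‖1 - z x‖ < h} ≤ ε := by
  let s : ℕ → Set Ω := fun n => {x | ‖1 - z x‖ < 1 / ((n : ℝ) + 1)}
  have hms : ∀ n, MeasurableSet (s n) := fun n =>
    measurableSet_lt ((continuous_const.sub continuous_z).norm.measurable) measurable_const
  have hanti : Antitone s := by
    intro m n hmn x hx
    simp only [s, Set.mem_ofPred_eq] at hx ⊢
    refine lt_of_lt_of_le hx ?_
    apply one_div_le_one_div_of_le (by positivity)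
    have : (m : ℝ) ≤ n := by exact_mod_cast hmn
    linarith
  have hlim := tendsto_measure_iInter_atTop (μ := (volume : Measure Ω))
    (fun n => (hms n).nullMeasurableSet) hanti ⟨0, measure_ne_top _ _⟩
  have hinter : (⋂ n, s n) ⊆ {(0 : Ω)} := by
    intro x hx
    have h1 : ‖1 - z x‖ ≤ 0 := by
      apply le_of_forall_pos_lt_add
      intro δ hδ
      obtain ⟨n, hn⟩ := exists_nat_one_div_lt hδ
      have := Set.mem_iInter.1 hx n
      simp only [s, Set.mem_ofPred_eq] at this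
      linarith
    have h2 : z x = 1 := by
      have := norm_le_zero_iff.1 h1
      linear_combination -this
    have h3 : AddCircle.toCircle x = AddCircle.toCircle (0 : Ω) := by
      rw [AddCircle.toCircle_zero]
      exact Subtype.ext (by simpa [z] using h2)
    exact AddCircle.injective_toCircle one_ne_zero h3
  have hsing : (volume : Measure Ω) {(0 : Ω)} = 0 := by
    have h1 := AddCircle.volume_closedBall (T := 1) (x := 0) 0
    rw [Metric.closedBall_zero] at h1
    rw [h1]; simp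
  have hzero : (volume : Measure Ω) (⋂ n, s n) = 0 :=
    measure_mono_null hinter hsing
  rw [hzero] at hlim
  have hev := (ENNReal.tendsto_nhds_zero.1 hlim) (ENNReal.ofReal ε) (by simpa using hε)
  obtain ⟨n, hn⟩ := hev.exists
  refine ⟨1 / ((n : ℝ) + 1), by positivity, ?_⟩
  rw [Measure.real]
  exact ENNReal.toReal_le_of_le_ofReal hε.le hn

lemma measure_comp (n : ℕ) (hn : 0 < n) (p : Ω → Prop) (hp : MeasurableSet {x | p x}) :
    (volume : Measure Ω).real {x | p (n • x)} = (volume : Measure Ω).real {x | p x} := by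
  have := (mp n hn).measure_preimage hp.nullMeasurableSet
  rw [Measure.real, Measure.real]
  congr 1

/-! ### V part -/

lemma sum_sq_le (K : ℕ) : ∑ k ∈ Icc 1 K, (1 / (k : ℝ)) ^ 2 ≤ 2 := by
  rcases Nat.eq_zero_or_pos K with hK | hK
  · subst hK; simp
  · obtain ⟨m, rfl⟩ := Nat.exists_eq_succ_of_ne_zero hK.ne'
    have : ∀ m : ℕ, ∑ k ∈ Icc 1 (m + 1), (1 / (k : ℝ)) ^ 2 ≤ 2 - 1 / ((m : ℝ) + 1) := by
      intro m
      induction m with
      | zero => norm_num
      | succ m ih =>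
        rw [Finset.sum_Icc_succ_top (by omega)]
        have e1 : (1 / ((m + 1 + 1 : ℕ) : ℝ)) ^ 2 ≤ 1 / ((m : ℝ) + 1) - 1 / ((m : ℝ) + 2) := by
          have hm : (0 : ℝ) ≤ m := by positivity
          push_cast
          rw [div_sub_div _ _ (by positivity) (by positivity), div_pow, one_pow,
            div_le_div_iff₀ (by positivity) (by positivity)]
          nlinarith
        push_cast at e1 ih ⊢
        have e2 : (m : ℝ) + 1 + 1 = m + 2 := by ring
        rw [e2] at e1 ⊢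
        linarith
    have h2 := this m
    have h3 : 0 < 1 / ((m : ℝ) + 1) := by positivity
    simp only [Nat.succ_eq_add_one] at *
    linarith

lemma V_part {ι : Type*} [Fintype ι] [DecidableEq ι] (ρ : ℝ) (h0 : 0 < ρ) (h1 : ρ < 1)
    (K' : ℕ) (h : ℝ) (hh : 0 < h) (n : ι → ℕ) (hn : ∀ j, 0 < n j)
    (hinj : ∀ i j k l, (1 ≤ k ∧ k ≤ K') → (1 ≤ l ∧ l ≤ K') → k * n i = l * n j → i = j ∧ k = l)
    (lam : ℝ) (hlam : 0 < lam) :
    (volume : Measure Ω).real {x | ∏ j, ‖1 - z x ^ (n j)‖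
        < Real.exp (-((Fintype.card ι : ℝ) * ((1 - ρ) / h + err ρ K')) - lam)}
      ≤ (Fintype.card ι : ℝ) * (volume : Measure Ω).real {x | ‖1 - z x‖ < h}
        + 2 * (Fintype.card ι : ℝ) / lam ^ 2 := by
  classical
  let G : Ω → ℂ := fun x => ∑ q ∈ (univ : Finset ι) ×ˢ Icc 1 K',
    ((ρ ^ q.2 / q.2 : ℝ) : ℂ) * z x ^ (q.2 * n q.1)
  let B : Set Ω := {x | lam ^ 2 ≤ ‖G x‖ ^ 2}
  have hG : ∫ x : Ω, ‖G x‖ ^ 2 = ∑ q ∈ (univ : Finset ι) ×ˢ Icc 1 K', (ρ ^ q.2 / q.2 : ℝ) ^ 2 := by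
    apply parseval
    intro q hq q' hq' he
    simp only [Finset.coe_product, Finset.coe_univ, Set.mem_prod, Set.mem_univ, true_and,
      Finset.coe_Icc, Set.mem_Icc] at hq hq'
    have := hinj q.1 q'.1 q.2 q'.2 hq hq' he
    exact Prod.ext this.1 this.2
  have hGle : ∫ x : Ω, ‖G x‖ ^ 2 ≤ 2 * (Fintype.card ι : ℝ) := by
    rw [hG, Finset.sum_product]
    simp only
    rw [Finset.sum_const, Finset.card_univ, nsmul_eq_mul, mul_comm]
    have hs : ∑ k ∈ Icc 1 K', (ρ ^ k / k : ℝ) ^ 2 ≤ 2 := by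
      refine le_trans (Finset.sum_le_sum (g := fun k : ℕ => (1 / (k : ℝ)) ^ 2) ?_) (sum_sq_le K')
      intro k hk
      have hk1 : 1 ≤ k := (Finset.mem_Icc.1 hk).1
      have hk0 : (0 : ℝ) < k := by exact_mod_cast hk1
      have : ρ ^ k ≤ 1 := pow_le_one₀ h0.le h1.le
      gcongr
    have hc : (0 : ℝ) ≤ Fintype.card ι := by positivity
    nlinarith
  have hGcont : Continuous G := by
    apply continuous_finsetSum
    intro q _
    exact continuous_const.mul (continuous_z.pow _)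
  have hB : (volume : Measure Ω).real B ≤ 2 * (Fintype.card ι : ℝ) / lam ^ 2 := by
    have h2 := mul_meas_ge_le_integral_of_nonneg (μ := (volume : Measure Ω))
      (f := fun x => ‖G x‖ ^ 2) (Filter.Eventually.of_forall fun x => by positivity)
      (integrable_of_cont _ (hGcont.norm.pow 2)) (lam ^ 2)
    rw [le_div_iff₀ (by positivity)]
    calc (volume : Measure Ω).real B * lam ^ 2 = lam ^ 2 * (volume : Measure Ω).real B := by ring
      _ ≤ _ := h2
      _ ≤ _ := hGle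
  have hsub : {x : Ω | ∏ j, ‖1 - z x ^ (n j)‖
        < Real.exp (-((Fintype.card ι : ℝ) * ((1 - ρ) / h + err ρ K')) - lam)}
      ⊆ (⋃ j : ι, {x | ‖1 - z (n j • x)‖ < h}) ∪ B := by
    intro x hx
    by_contra hcon
    simp only [Set.mem_union, Set.mem_iUnion, Set.mem_ofPred_eq, not_or, not_exists, not_lt, B,
      not_le] at hcon hx
    obtain ⟨hc1, hc2⟩ := hcon
    have hc3 : ‖G x‖ < lam := lt_of_pow_lt_pow_left₀ 2 hlam.le hc2
    have hlow : ∀ j, Real.exp (-((1 - ρ) / h + err ρ K')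
        - ∑ k ∈ Icc 1 K', ρ ^ k / k * ((z x ^ (n j)) ^ k).re) ≤ ‖1 - z x ^ (n j)‖ := by
      intro j
      have h2 := hc1 j
      rw [z_nsmul] at h2
      exact lower_bound ρ h0 h1 K' h hh _ (by rw [norm_pow, norm_z, one_pow]) h2
    have hprod : ∏ j, Real.exp (-((1 - ρ) / h + err ρ K')
        - ∑ k ∈ Icc 1 K', ρ ^ k / k * ((z x ^ (n j)) ^ k).re) ≤ ∏ j, ‖1 - z x ^ (n j)‖ :=
      Finset.prod_le_prod (fun _ _ => (Real.exp_pos _).le) (fun j _ => hlow j)
    rw [← Real.exp_sum] at hprod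
    have hre : ∑ j, ∑ k ∈ Icc 1 K', ρ ^ k / k * ((z x ^ (n j)) ^ k).re = (G x).re := by
      simp only [G]
      rw [Complex.re_sum, Finset.sum_product]
      apply Finset.sum_congr rfl
      intro j _
      apply Finset.sum_congr rfl
      intro k _
      simp only
      rw [Complex.re_ofReal_mul, mul_comm k (n j), pow_mul]
    have hre2 : (G x).re ≤ ‖G x‖ := Complex.re_le_norm _
    have hfin : Real.exp (-((Fintype.card ι : ℝ) * ((1 - ρ) / h + err ρ K')) - lam)
        ≤ ∏ j, ‖1 - z x ^ (n j)‖ := by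
      refine le_trans ?_ hprod
      apply Real.exp_le_exp.2
      rw [Finset.sum_sub_distrib, hre, Finset.sum_const, Finset.card_univ, nsmul_eq_mul]
      linarith
    exact absurd hx (not_lt.2 hfin)
  calc (volume : Measure Ω).real _
      ≤ (volume : Measure Ω).real ((⋃ j : ι, {x | ‖1 - z (n j • x)‖ < h}) ∪ B) :=
        measureReal_mono hsub
    _ ≤ (volume : Measure Ω).real (⋃ j : ι, {x | ‖1 - z (n j • x)‖ < h})
        + (volume : Measure Ω).real B := measureReal_union_le _ _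
    _ ≤ ∑ j : ι, (volume : Measure Ω).real {x | ‖1 - z (n j • x)‖ < h}
        + 2 * (Fintype.card ι : ℝ) / lam ^ 2 := by
        gcongr
        exact measureReal_iUnion_fintype_le _
    _ = _ := by
        congr 1
        have : ∀ j : ι, (volume : Measure Ω).real {x | ‖1 - z (n j • x)‖ < h}
            = (volume : Measure Ω).real {x | ‖1 - z x‖ < h} := by
          intro j
          exact measure_comp (n j) (hn j) (fun x => ‖1 - z x‖ < h)
            (measurableSet_lt ((continuous_const.sub continuous_z).norm.measurable)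
              measurable_const)
        simp_rw [this]
        rw [Finset.sum_const, Finset.card_univ, nsmul_eq_mul]

end Konyagin305
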