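import Pool.Agent.Konyagin305.Basic

set_option autoImplicit false
open MeasureTheory Finset Filter

namespace Konyagin305

/-- integer weights -/
def W (K L R : ℕ) (v : ℕ → ℕ) (a : ℕ) : ℤ :=
  (R : ℤ) * L * (K - a) - 2 * K * ∑ i ∈ range R,
    (if (v i ∣ a ∧ a / v i < L) then ((L : ℤ) - ((a / v i : ℕ) : ℤ)) else 0)

lemma inner_sum (v L K : ℕ) (hv : 0 < v) (hvL : v * L ≤ K) (g : ℕ → ℝ) :
    ∑ a ∈ Ico 1 K, (if (v ∣ a ∧ a / v < L) then ((L : ℝ) - ((a / v : ℕ) : ℝ)) else 0) * g a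
      = ∑ b ∈ Ico 1 L, ((L : ℝ) - b) * g (v * b) := by
  simp_rw [ite_mul, zero_mul]
  rw [← Finset.sum_filter]
  symm
  apply Finset.sum_bij' (fun b _ => v * b) (fun a _ => a / v)
  · intro b hb
    rw [Finset.mem_Ico] at hb
    rw [Finset.mem_filter, Finset.mem_Ico]
    refine ⟨⟨?_, ?_⟩, Dvd.intro _ rfl, ?_⟩
    · exact Nat.mul_pos hv (by omega)
    · calc v * b < v * L := Nat.mul_lt_mul_of_pos_left hb.2 hv
        _ ≤ K := hvL
    · rw [Nat.mul_div_cancel_left _ hv]; exact hb.2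
  · intro a ha
    rw [Finset.mem_filter, Finset.mem_Ico] at ha
    rw [Finset.mem_Ico]
    obtain ⟨⟨h1, _⟩, ⟨q, rfl⟩, h3⟩ := ha
    rw [Nat.mul_div_cancel_left _ hv] at h3 ⊢
    refine ⟨?_, h3⟩
    rcases Nat.eq_zero_or_pos q with h | h
    · subst h; simp at h1
    · exact h
  · intro b _
    exact Nat.mul_div_cancel_left _ hv
  · intro a ha
    rw [Finset.mem_filter] at ha
    exact Nat.mul_div_cancel' ha.2.1
  · intro b hb
    rw [Nat.mul_div_cancel_left _ hv]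

lemma weights_sum (K L R : ℕ) (v : ℕ → ℕ) (hv : ∀ i, 0 < v i) (hvL : ∀ i < R, v i * L ≤ K)
    (g : ℕ → ℝ) :
    ∑ a ∈ Ico 1 K, (W K L R v a : ℝ) * g a
      = (R : ℝ) * L * ∑ a ∈ Ico 1 K, ((K : ℝ) - a) * g a
        - 2 * K * ∑ i ∈ range R, ∑ b ∈ Ico 1 L, ((L : ℝ) - b) * g (v i * b) := by
  have h1 : ∀ a, (W K L R v a : ℝ) * g a = (R : ℝ) * L * (((K : ℝ) - a) * g a)
      - 2 * K * ∑ i ∈ range R,
        ((if (v i ∣ a ∧ a / v i < L) then ((L : ℝ) - ((a / v i : ℕ) : ℝ)) else 0) * g a) := by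
    intro a
    unfold W
    simp only [Int.cast_sub, Int.cast_mul, Int.cast_sum, Int.cast_natCast, Int.cast_ofNat,
      Int.cast_ite, Int.cast_zero]
    rw [← Finset.sum_mul]
    ring
  simp_rw [h1]
  rw [Finset.sum_sub_distrib, ← Finset.mul_sum, ← Finset.mul_sum, Finset.sum_comm]
  congr 2
  apply Finset.sum_congr rfl
  intro i hi
  exact inner_sum (v i) L K (hv i) (hvL i (Finset.mem_range.1 hi)) g

/-- unnormalised Fejér kernel -/
noncomputable def G (L : ℕ) (y : ℂ) : ℝ := ‖∑ j ∈ range L, y ^ j‖ ^ 2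

lemma G_nonneg (L : ℕ) (y : ℂ) : 0 ≤ G L y := by unfold G; positivity

lemma weights_cos (K L R : ℕ) (v : ℕ → ℕ) (hv : ∀ i, 0 < v i) (hvL : ∀ i < R, v i * L ≤ K)
    (y : ℂ) (hy : ‖y‖ = 1) :
    (R : ℝ) * L * K / 2 - K * ∑ i ∈ range R, G L (y ^ v i)
      ≤ ∑ a ∈ Ico 1 K, (W K L R v a : ℝ) * (y ^ a).re := by
  rw [weights_sum K L R v hv hvL (fun a => (y ^ a).re)]
  have h1 := fejer_identity y hy K
  have h2 : ∀ i, ∑ b ∈ Ico 1 L, ((L : ℝ) - b) * (y ^ (v i * b)).re = (G L (y ^ v i) - L) / 2 := by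
    intro i
    have h3 := fejer_identity (y ^ v i) (by rw [norm_pow, hy, one_pow]) L
    unfold G
    rw [h3]
    simp_rw [pow_mul]
    ring
  simp_rw [h2]
  have h4 : ∑ a ∈ Ico 1 K, ((K : ℝ) - a) * (y ^ a).re = (G K y - K) / 2 := by
    unfold G; rw [h1]; ring
  rw [h4]
  have h5 : ∑ i ∈ range R, (G L (y ^ v i) - (L : ℝ)) / 2
      = (∑ i ∈ range R, G L (y ^ v i)) / 2 - R * L / 2 := by
    rw [← Finset.sum_div, Finset.sum_sub_distrib, Finset.sum_const, Finset.card_range,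
      nsmul_eq_mul]
    ring
  rw [h5]
  have h6 : 0 ≤ (R : ℝ) * L * G K y := by
    have := G_nonneg K y
    positivity
  nlinarith

/-- few large primes divide a small number -/
lemma card_dvd_lt (R s Z a : ℕ) (v : ℕ → ℕ) (hp : ∀ i, (v i).Prime) (hmono : StrictMono v)
    (hZ : 2 ≤ Z) (hvZ : ∀ i, Z < v i) (ha : 0 < a) (haZ : a < Z ^ (s + 2)) :
    ((range R).filter (fun i => v i ∣ a)).card ≤ s + 1 := by
  by_contra hcon
  push Not at hcon
  set I := (range R).filter (fun i => v i ∣ a) with hI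
  have h1 : ∏ p ∈ I.image v, p ∣ a := by
    apply Finset.prod_primes_dvd
    · intro p hp'
      obtain ⟨i, _, rfl⟩ := Finset.mem_image.1 hp'
      exact (hp i).prime
    · intro p hp'
      obtain ⟨i, hi, rfl⟩ := Finset.mem_image.1 hp'
      exact (Finset.mem_filter.1 hi).2
  rw [Finset.prod_image (fun i _ j _ h => hmono.injective h)] at h1
  have h2 : Z ^ I.card ≤ ∏ i ∈ I, v i := by
    rw [← Finset.prod_const]
    exact Finset.prod_le_prod' (fun i _ => (hvZ i).le)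
  have h3 : Z ^ (s + 2) ≤ Z ^ I.card := Nat.pow_le_pow_right (by omega) (by omega)
  have h4 := Nat.le_of_dvd ha h1
  omega

lemma W_nonneg (K L R s Z : ℕ) (v : ℕ → ℕ) (hp : ∀ i, (v i).Prime) (hmono : StrictMono v)
    (hZ : 2 ≤ Z) (hvZ : ∀ i, Z < v i) (hR : R = 4 * (s + 2)) (hK : K ≤ Z ^ (s + 2))
    (hvL : ∀ i < R, 2 * (v i * L) ≤ K) (a : ℕ) (ha : 0 < a) (haK : a < K) :
    0 ≤ W K L R v a := by
  unfold W
  have hcard := card_dvd_lt R s Z a v hp hmono hZ hvZ ha (by omega)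
  by_cases h2a : K ≤ 2 * a
  · have h0 : ∑ i ∈ range R,
        (if (v i ∣ a ∧ a / v i < L) then ((L : ℤ) - ((a / v i : ℕ) : ℤ)) else 0) = 0 := by
      apply Finset.sum_eq_zero
      intro i hi
      rw [if_neg]
      rintro ⟨h1, h2⟩
      have h3 := hvL i (Finset.mem_range.1 hi)
      rw [Nat.div_lt_iff_lt_mul (hp i).pos] at h2
      have : v i * L = L * v i := mul_comm _ _
      omega
    rw [h0, mul_zero, sub_zero]
    have : (a : ℤ) ≤ K := by exact_mod_cast haK.le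
    have h4 : (0 : ℤ) ≤ (K : ℤ) - a := by linarith
    positivity
  · push Not at h2a
    have h1 : ∑ i ∈ range R,
        (if (v i ∣ a ∧ a / v i < L) then ((L : ℤ) - ((a / v i : ℕ) : ℤ)) else 0)
        ≤ ∑ i ∈ (range R).filter (fun i => v i ∣ a), (L : ℤ) := by
      rw [Finset.sum_filter]
      apply Finset.sum_le_sum
      intro i _
      by_cases h3 : v i ∣ a
      · rw [if_pos h3]
        split_ifs
        · have : (0 : ℤ) ≤ ((a / v i : ℕ) : ℤ) := by positivity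
          linarith
        · positivity
      · rw [if_neg h3, if_neg (fun h => h3 h.1)]
    rw [Finset.sum_const, nsmul_eq_mul] at h1
    have h5 : (((range R).filter (fun i => v i ∣ a)).card : ℤ) ≤ s + 1 := by exact_mod_cast hcard
    have h6 : ∑ i ∈ range R,
        (if (v i ∣ a ∧ a / v i < L) then ((L : ℤ) - ((a / v i : ℕ) : ℤ)) else 0)
        ≤ (s + 1) * L := by
      refine h1.trans ?_
      gcongr
    have h7 : (K : ℤ) ≤ 2 * ((K : ℤ) - a) := by
      have : (2 * a : ℤ) < K := by exact_mod_cast h2a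
      linarith
    have hR' : (R : ℤ) = 4 * (s + 2) := by exact_mod_cast hR
    have hL0 : (0 : ℤ) ≤ L := by positivity
    have hK0 : (0 : ℤ) ≤ K := by positivity
    have h8 : 2 * (K : ℤ) * ∑ i ∈ range R,
        (if (v i ∣ a ∧ a / v i < L) then ((L : ℤ) - ((a / v i : ℕ) : ℤ)) else 0)
        ≤ 2 * K * ((s + 1) * L) := by gcongr
    have h9 : 2 * (K : ℤ) * ((s + 1) * L) ≤ (R : ℤ) * L * (K - a) := by
      rw [hR']
      have h10 : (s + 1 : ℤ) * 2 * K ≤ 4 * (s + 2) * (K - a) := by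
        have : (0:ℤ) ≤ s := by positivity
        nlinarith
      nlinarith
    linarith

/-- Bertrand chain of primes -/
lemma primes_chain (Z : ℕ) (hZ : 2 ≤ Z) :
    ∃ v : ℕ → ℕ, (∀ i, (v i).Prime) ∧ StrictMono v ∧ (∀ i, Z < v i) ∧
      ∀ i, v i ≤ 2 ^ (i + 1) * Z := by
  have hb : ∀ n : ℕ, 0 < n → ∃ p, p.Prime ∧ n < p ∧ p ≤ 2 * n := fun n hn =>
    Nat.exists_prime_lt_and_le_two_mul n hn.ne'
  choose! f hf using hb
  let v : ℕ → ℕ := fun i => Nat.rec (f Z) (fun _ m => f m) i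
  have hpos : ∀ i, 0 < v i ∧ (v i).Prime := by
    intro i
    induction i with
    | zero => exact ⟨(hf Z (by omega)).1.pos, (hf Z (by omega)).1⟩
    | succ i ih => exact ⟨(hf (v i) ih.1).1.pos, (hf (v i) ih.1).1⟩
  have hstep : ∀ i, v i < v (i + 1) := fun i => (hf (v i) (hpos i).1).2.1
  have hstep2 : ∀ i, v (i + 1) ≤ 2 * v i := fun i => (hf (v i) (hpos i).1).2.2
  have hmono : StrictMono v := strictMono_nat_of_lt_succ hstep
  have h0 : Z < v 0 := (hf Z (by omega)).2.1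
  refine ⟨v, fun i => (hpos i).2, hmono, ?_, ?_⟩
  · intro i
    exact lt_of_lt_of_le h0 (hmono.monotone (Nat.zero_le i))
  · intro i
    induction i with
    | zero =>
      have h := (hf Z (by omega)).2.2
      show f Z ≤ 2 ^ (0 + 1) * Z
      simpa using h
    | succ i ih =>
      refine (hstep2 i).trans ?_
      rw [pow_succ (2 : ℕ) (i + 1)]
      nlinarith

end Konyagin305
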