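import Pool.Agent.Konyagin305.Dirichlet
import Pool.Agent.Konyagin305.Weights

set_option autoImplicit false
open MeasureTheory Finset Filter

namespace Konyagin305

/-! ### analytic inequalities -/

lemma sqrt_sum_le {α : Type*} (I : Finset α) (f : α → ℝ) (hf : ∀ i ∈ I, 0 ≤ f i) :
    Real.sqrt (∑ i ∈ I, f i) ≤ ∑ i ∈ I, Real.sqrt (f i) := by
  classical
  induction I using Finset.induction_on with
  | empty => simp
  | insert a s ha ih =>
    rw [Finset.sum_insert ha, Finset.sum_insert ha]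
    have h1 := ih (fun i hi => hf i (Finset.mem_insert_of_mem hi))
    have h2 := hf a (Finset.mem_insert_self a s)
    have h3 : 0 ≤ ∑ i ∈ s, f i := Finset.sum_nonneg (fun i hi => hf i (Finset.mem_insert_of_mem hi))
    have h4 : Real.sqrt (f a + ∑ i ∈ s, f i) ≤ Real.sqrt (f a) + Real.sqrt (∑ i ∈ s, f i) := by
      rw [Real.sqrt_le_left (by positivity)]
      have e1 := Real.sq_sqrt h2
      have e2 := Real.sq_sqrt h3
      have e3 : 0 ≤ Real.sqrt (f a) * Real.sqrt (∑ i ∈ s, f i) := by positivity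
      nlinarith
    linarith

lemma sum_inv_sqrt_le (n : ℕ) : ∑ k ∈ Icc 1 n, 1 / Real.sqrt k ≤ 2 * Real.sqrt n := by
  induction n with
  | zero => simp
  | succ n ih =>
    rw [Finset.sum_Icc_succ_top (by omega)]
    push_cast
    have h1 : 0 < Real.sqrt ((n : ℝ) + 1) := Real.sqrt_pos.2 (by positivity)
    have h0 : 0 ≤ Real.sqrt (n : ℝ) := Real.sqrt_nonneg _
    have e1 : Real.sqrt ((n : ℝ) + 1) ^ 2 = n + 1 := Real.sq_sqrt (by positivity)
    have e0 : Real.sqrt (n : ℝ) ^ 2 = n := Real.sq_sqrt (by positivity)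
    have hle : Real.sqrt (n : ℝ) ≤ Real.sqrt ((n : ℝ) + 1) := Real.sqrt_le_sqrt (by linarith)
    have h2 : 1 / Real.sqrt ((n : ℝ) + 1) ≤ 2 * (Real.sqrt ((n : ℝ) + 1) - Real.sqrt n) := by
      rw [div_le_iff₀ h1]
      nlinarith
    linarith

lemma sum_beta_le (ρ : ℝ) (h0 : 0 < ρ) (h1 : ρ < 1) (N : ℕ) :
    |Real.log (1 - ρ) + ∑ k ∈ Icc 1 N, ρ ^ k / k| ≤ err ρ N := by
  have h := log_expansion ρ h0 h1 N 1 (by simp)
  have e : ‖(1 : ℂ) - ρ * 1‖ = 1 - ρ := by
    rw [mul_one, ← Complex.ofReal_one, ← Complex.ofReal_sub, Complex.norm_real,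
      Real.norm_of_nonneg (by linarith)]
  rw [e] at h
  simpa [err] using h

lemma sum_beta_ge (K k1 : ℕ) (hK : 2 ≤ K) (hk1 : 1 ≤ k1) (hk : k1 ≤ K) :
    Real.log k1 - 1 ≤ ∑ k ∈ Icc 1 k1, (1 - 1 / (K : ℝ)) ^ k / k := by
  have hK0 : (0 : ℝ) < K := by positivity
  have h1 : ∀ k ∈ Icc 1 k1, (1 / (k : ℝ)) - 1 / K ≤ (1 - 1 / (K : ℝ)) ^ k / k := by
    intro k hk'
    have hk1' : 1 ≤ k := (Finset.mem_Icc.1 hk').1
    have hk0 : (0 : ℝ) < k := by exact_mod_cast hk1'
    have hb := one_add_mul_le_pow (a := -(1 / (K : ℝ))) (by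
      have : 1 / (K : ℝ) ≤ 1 := by
        rw [div_le_one hK0]; exact_mod_cast (by omega : 1 ≤ K)
      linarith) k
    have e : (1 / (k : ℝ)) - 1 / K = (1 + k * -(1 / (K : ℝ))) / k := by field_simp; ring
    rw [e]
    gcongr
    rw [show (1 : ℝ) - 1 / K = 1 + -(1 / K) by ring]
    exact hb
  refine le_trans ?_ (Finset.sum_le_sum h1)
  rw [Finset.sum_sub_distrib, Finset.sum_const, Nat.card_Icc, nsmul_eq_mul]
  have h2 : Real.log ((k1 : ℝ) + 1) ≤ ∑ k ∈ Icc 1 k1, 1 / (k : ℝ) := by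
    have := log_add_one_le_harmonic k1
    rw [harmonic_eq_sum_Icc] at this
    push_cast at this
    simpa [one_div] using this
  have h3 : Real.log k1 ≤ Real.log ((k1 : ℝ) + 1) := by
    apply Real.log_le_log
    · exact_mod_cast hk1
    · linarith
  have h4 : ((k1 + 1 - 1 : ℕ) : ℝ) * (1 / K) ≤ 1 := by
    rw [Nat.add_sub_cancel, mul_one_div, div_le_one hK0]
    exact_mod_cast hk
  linarith

/-! ### the average of Fejér kernels -/

/-- average of the dilated Fejér kernels -/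
noncomputable def Yk (L R : ℕ) (v : ℕ → ℕ) (k : ℕ) (x : Ω) : ℝ :=
  ∑ i ∈ range R, G L (z x ^ (k * v i)) / (R * L)

lemma Yk_nonneg (L R : ℕ) (v : ℕ → ℕ) (k : ℕ) (x : Ω) : 0 ≤ Yk L R v k x := by
  unfold Yk
  apply Finset.sum_nonneg
  intro i _
  have := G_nonneg L (z x ^ (k * v i))
  positivity

lemma continuous_G_comp (L : ℕ) : Continuous (fun x : Ω => G L (z x)) := by
  unfold G
  exact (continuous_finsetSum _ (fun j _ => continuous_z.pow j)).norm.pow 2

lemma continuous_Yk (L R : ℕ) (v : ℕ → ℕ) (k : ℕ) : Continuous (Yk L R v k) := by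
  unfold Yk G
  apply continuous_finsetSum
  intro i _
  apply Continuous.div_const
  exact (continuous_finsetSum _ (fun j _ => (continuous_z.pow _).pow j)).norm.pow 2

lemma integral_G (L : ℕ) : ∫ x : Ω, G L (z x) = L := by
  unfold G
  have h : ∀ x : Ω, ‖∑ j ∈ range L, z x ^ j‖ ^ 2
      = ‖∑ j ∈ range L, ((1 : ℝ) : ℂ) * z x ^ (id j)‖ ^ 2 := by
    intro x; simp
  simp_rw [h]
  rw [parseval (range L) (fun _ => 1) id (Function.injective_id.injOn)]
  simp

lemma integral_comp_nsmul (n : ℕ) (hn : 0 < n) (f : Ω → ℝ) (hf : Continuous f) :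
    ∫ x : Ω, f (n • x) = ∫ x : Ω, f x := by
  have h := (mp n hn)
  have := integral_map (μ := (volume : Measure Ω)) h.measurable.aemeasurable
    (f := f) (by rw [h.map_eq]; exact hf.aestronglyMeasurable)
  rw [h.map_eq] at this
  exact this.symm

lemma integral_Yk (L R : ℕ) (hL : 0 < L) (hR : 0 < R) (v : ℕ → ℕ) (hv : ∀ i, 0 < v i) (k : ℕ)
    (hk : 0 < k) : ∫ x : Ω, Yk L R v k x = 1 := by
  unfold Yk
  rw [integral_finsetSum]
  swap
  · intro i _
    apply integrable_of_cont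
    apply Continuous.div_const
    unfold G
    exact (continuous_finsetSum _ (fun j _ => (continuous_z.pow _).pow j)).norm.pow 2
  have h : ∀ i, ∫ x : Ω, G L (z x ^ (k * v i)) / ((R : ℝ) * L) = 1 / R := by
    intro i
    have h1 : ∀ x : Ω, G L (z x ^ (k * v i)) = G L (z ((k * v i) • x)) := by
      intro x; rw [z_nsmul]
    simp_rw [h1]
    rw [integral_div, integral_comp_nsmul (k * v i) (Nat.mul_pos hk (hv i))
      (fun x => G L (z x)) (continuous_G_comp L), integral_G]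
    have hL' : (0 : ℝ) < L := by exact_mod_cast hL
    have hR' : (0 : ℝ) < R := by exact_mod_cast hR
    field_simp
  simp_rw [h]
  rw [Finset.sum_const, Finset.card_range, nsmul_eq_mul]
  have hR' : (0 : ℝ) < R := by exact_mod_cast hR
  field_simp

lemma Y2_bound (L R : ℕ) (hL : 0 < L) (hR : 0 < R) (v : ℕ → ℕ) (hv : ∀ i, 0 < v i)
    (A : Finset ℕ) (hA : ∀ k ∈ A, 0 < k) (β : ℕ → ℝ) (hβ : ∀ k ∈ A, 0 ≤ β k)
    (lam : ℝ) (hlam : 0 < lam) :
    (volume : Measure Ω).real {x | lam ≤ ∑ k ∈ A, β k * Yk L R v k x}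
      ≤ (∑ k ∈ A, β k) / lam := by
  have hcont : Continuous (fun x : Ω => ∑ k ∈ A, β k * Yk L R v k x) :=
    continuous_finsetSum _ (fun k _ => continuous_const.mul (continuous_Yk L R v k))
  have h := mul_meas_ge_le_integral_of_nonneg (μ := (volume : Measure Ω))
      (f := fun x => ∑ k ∈ A, β k * Yk L R v k x) (Filter.Eventually.of_forall fun x =>
        Finset.sum_nonneg (fun k hk => mul_nonneg (hβ k hk) (Yk_nonneg L R v k x)))
      (integrable_of_cont _ hcont) lam
  have hI : ∫ x : Ω, ∑ k ∈ A, β k * Yk L R v k x = ∑ k ∈ A, β k := by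
    rw [integral_finsetSum]
    · apply Finset.sum_congr rfl
      intro k hk
      rw [integral_const_mul, integral_Yk L R hL hR v hv k (hA k hk), mul_one]
    · intro k _
      exact integrable_of_cont _ (continuous_const.mul (continuous_Yk L R v k))
  rw [hI] at h
  rw [le_div_iff₀ hlam, mul_comm]
  exact h

lemma Y1_bound (L R : ℕ) (hL : 0 < L) (hR : 0 < R) (v : ℕ → ℕ) (hv : ∀ i, 0 < v i)
    (k1 : ℕ) (β : ℕ → ℝ) (hβ : ∀ k ∈ Icc 1 k1, 0 ≤ β k) (hβ2 : ∀ k ∈ Icc 1 k1, β k ≤ 1 / k)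
    (τ : ℝ) (hτ0 : 0 < τ) (hτ1 : τ < 1) :
    (volume : Measure Ω).real {x | 1 ≤ ∑ k ∈ Icc 1 k1, β k * Yk L R v k x}
      ≤ 2 * Real.sqrt k1 * (R / Real.sqrt (R * L)) * ((L : ℝ) ^ τ * (2 / τ)) := by
  have hRL : (0 : ℝ) < (R : ℝ) * L := by
    have hL' : (0 : ℝ) < L := by exact_mod_cast hL
    have hR' : (0 : ℝ) < R := by exact_mod_cast hR
    positivity
  let F : Ω → ℝ := fun x => ∑ k ∈ Icc 1 k1, ∑ i ∈ range R,
    (1 / Real.sqrt k * (1 / Real.sqrt (R * L))) * ‖∑ j ∈ range L, z ((k * v i) • x) ^ j‖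
  have hD : Continuous (fun x : Ω => ‖∑ j ∈ range L, z x ^ j‖) :=
    (continuous_finsetSum _ (fun j _ => continuous_z.pow j)).norm
  have hDn : ∀ n : ℕ, Continuous (fun x : Ω => ‖∑ j ∈ range L, z (n • x) ^ j‖) := fun n =>
    hD.comp (continuous_nsmul n)
  have hFcont : Continuous F := by
    apply continuous_finsetSum
    intro k _
    apply continuous_finsetSum
    intro i _
    exact continuous_const.mul (hDn _)
  have hFpos : ∀ x, 0 ≤ F x := by
    intro x
    apply Finset.sum_nonneg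
    intro k _
    apply Finset.sum_nonneg
    intro i _
    positivity
  have hle : ∀ x, Real.sqrt (∑ k ∈ Icc 1 k1, β k * Yk L R v k x) ≤ F x := by
    intro x
    refine (sqrt_sum_le _ _ (fun k hk => mul_nonneg (hβ k hk) (Yk_nonneg L R v k x))).trans ?_
    apply Finset.sum_le_sum
    intro k hk
    have hk1 : 1 ≤ k := (Finset.mem_Icc.1 hk).1
    have hk0 : (0 : ℝ) < k := by exact_mod_cast hk1
    unfold Yk
    rw [Finset.mul_sum]
    have hnn : ∀ i ∈ range R, 0 ≤ β k * (G L (z x ^ (k * v i)) / (R * L)) := by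
      intro i _
      have := G_nonneg L (z x ^ (k * v i))
      have := hβ k hk
      positivity
    refine (sqrt_sum_le _ _ hnn).trans ?_
    apply Finset.sum_le_sum
    intro i _
    rw [Real.sqrt_le_left (by positivity)]
    have e1 : (1 / Real.sqrt k * (1 / Real.sqrt (R * L)) * ‖∑ j ∈ range L, z ((k * v i) • x) ^ j‖) ^ 2
        = 1 / k * (1 / (R * L)) * G L (z x ^ (k * v i)) := by
      rw [z_nsmul, mul_pow, mul_pow, div_pow, div_pow, Real.sq_sqrt hk0.le, Real.sq_sqrt hRL.le]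
      unfold G
      ring
    rw [e1]
    have hG := G_nonneg L (z x ^ (k * v i))
    have h2 := hβ2 k hk
    calc β k * (G L (z x ^ (k * v i)) / (R * L)) ≤ 1 / k * (G L (z x ^ (k * v i)) / (R * L)) := by
          gcongr
      _ = _ := by ring
  have hsub : {x : Ω | 1 ≤ ∑ k ∈ Icc 1 k1, β k * Yk L R v k x} ⊆ {x | 1 ≤ F x} := by
    intro x hx
    simp only [Set.mem_ofPred_eq] at hx ⊢
    have : (1 : ℝ) ≤ Real.sqrt (∑ k ∈ Icc 1 k1, β k * Yk L R v k x) := by
      rw [← Real.sqrt_one]; exact Real.sqrt_le_sqrt hx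
    exact this.trans (hle x)
  have hmk := mul_meas_ge_le_integral_of_nonneg (μ := (volume : Measure Ω))
      (f := F) (Filter.Eventually.of_forall hFpos) (integrable_of_cont _ hFcont) 1
  rw [one_mul] at hmk
  refine (measureReal_mono hsub).trans (hmk.trans ?_)
  have hI : ∫ x : Ω, F x = ∑ k ∈ Icc 1 k1, ∑ i ∈ range R,
      (1 / Real.sqrt k * (1 / Real.sqrt (R * L))) * ∫ x : Ω, ‖∑ j ∈ range L, z x ^ j‖ := by
    simp only [F]
    rw [integral_finsetSum]
    · apply Finset.sum_congr rfl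
      intro k hk
      have hk1 : 1 ≤ k := (Finset.mem_Icc.1 hk).1
      rw [integral_finsetSum]
      · apply Finset.sum_congr rfl
        intro i _
        rw [integral_const_mul]
        congr 1
        exact integral_comp_nsmul (k * v i) (Nat.mul_pos hk1 (hv i))
          (fun x => ‖∑ j ∈ range L, z x ^ j‖) hD
      · intro i _
        exact integrable_of_cont _ (continuous_const.mul (hDn _))
    · intro k _
      apply integrable_of_cont
      apply continuous_finsetSum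
      intro i _
      exact continuous_const.mul (hDn _)
  rw [hI]
  have hDI := dirichlet_L1 L τ hτ0 hτ1
  set DI := ∫ x : Ω, ‖∑ j ∈ range L, z x ^ j‖ with hDIdef
  have hDI0 : 0 ≤ DI := integral_nonneg (fun x => norm_nonneg _)
  have e2 : ∑ k ∈ Icc 1 k1, ∑ i ∈ range R, (1 / Real.sqrt k * (1 / Real.sqrt (R * L))) * DI
      = (∑ k ∈ Icc 1 k1, 1 / Real.sqrt k) * (R / Real.sqrt (R * L)) * DI := by
    rw [Finset.sum_mul, Finset.sum_mul]
    apply Finset.sum_congr rfl
    intro k _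
    rw [Finset.sum_const, Finset.card_range, nsmul_eq_mul]
    ring
  rw [e2]
  have h3 := sum_inv_sqrt_le k1
  gcongr

end Konyagin305
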